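import Mathlib

open Finset

namespace Pool.Agent.P.MP_4a087e_lc

variable {k : ℕ}

/-- squared Euclidean norm of an integer vector -/
def sqn (v : Fin k → ℤ) : ℤ := ∑ i, v i ^ 2

lemma sqn_nonneg (v : Fin k → ℤ) : 0 ≤ sqn v := Finset.sum_nonneg fun _ _ => sq_nonneg _

lemma sq_le_sqn (v : Fin k → ℤ) (i : Fin k) : v i ^ 2 ≤ sqn v :=
  Finset.single_le_sum (f := fun i => v i ^ 2) (fun _ _ => sq_nonneg _) (Finset.mem_univ i)

lemma abs_le_of_sqn {v : Fin k → ℤ} {D : ℕ} (h : sqn v ≤ (D : ℤ) ^ 2) (i : Fin k) : |v i| ≤ D :=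
  abs_le_of_sq_le_sq' ((sq_le_sqn v i).trans h) (by positivity) |> abs_le.mpr

lemma sqn_sub_comm (a b : Fin k → ℤ) : sqn (a - b) = sqn (b - a) :=
  Finset.sum_congr rfl fun i _ => by simp only [Pi.sub_apply]; ring

section
variable (S : Set (Fin k → ℤ))

def PP (t : ℕ) : Set (Fin k → ℤ) := {c | ∀ a ∈ S, sqn (c - a) ≤ t}

noncomputable def rad : ℕ := sInf {t | (PP S t).Nonempty}

noncomputable def corner (i : Fin k) : ℤ := sInf ((fun c => c i) '' PP S (rad S))

variable {S}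

lemma rad_le {t : ℕ} (h : (PP S t).Nonempty) : rad S ≤ t := Nat.sInf_le h

lemma rad_spec {t : ℕ} (h : (PP S t).Nonempty) : (PP S (rad S)).Nonempty :=
  Nat.sInf_mem (s := {t | (PP S t).Nonempty}) ⟨t, h⟩

lemma PP_mono {S' : Set (Fin k → ℤ)} (h : S ⊆ S') (t : ℕ) : PP S' t ⊆ PP S t :=
  fun _ hc a ha => hc a (h ha)

/-- the standing assumption: `S` contains `b` and lies within distance `D` of it -/
structure Near (S : Set (Fin k → ℤ)) (b : Fin k → ℤ) (D : ℕ) : Prop where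
  mem : b ∈ S
  le : ∀ a ∈ S, sqn (b - a) ≤ (D : ℤ) ^ 2

variable {b : Fin k → ℤ} {D : ℕ}

lemma Near.PP_nonempty (h : Near S b D) : (PP S (D ^ 2)).Nonempty :=
  ⟨b, fun a ha => by exact_mod_cast h.le a ha⟩

lemma Near.rad_le (h : Near S b D) : rad S ≤ D ^ 2 := MP_4a087e_lc.rad_le h.PP_nonempty

lemma Near.nonempty (h : Near S b D) : (PP S (rad S)).Nonempty := rad_spec h.PP_nonempty

lemma PP_abs {t : ℕ} (ht : t ≤ D ^ 2) {c a : Fin k → ℤ} (hc : c ∈ PP S t)
    (ha : a ∈ S) (i : Fin k) : |c i - a i| ≤ D :=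
  abs_le_of_sqn (v := c - a) ((hc a ha).trans (by exact_mod_cast ht)) i

lemma Near.isLeast (h : Near S b D) (i : Fin k) :
    IsLeast ((fun c => c i) '' PP S (rad S)) (corner S i) := by
  have hb : BddBelow ((fun c => c i) '' PP S (rad S)) := by
    refine ⟨b i - D, ?_⟩
    rintro _ ⟨c, hc, rfl⟩
    have := abs_le.mp (PP_abs h.rad_le hc h.mem i)
    simp only
    linarith [this.1]
  exact ⟨Int.csInf_mem (h.nonempty.image _) hb, fun x hx => csInf_le hb hx⟩

lemma Near.corner_abs (h : Near S b D) (i : Fin k) : |corner S i - b i| ≤ D := by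
  obtain ⟨c, hc, e⟩ := (h.isLeast i).1
  rw [← e]
  exact PP_abs h.rad_le hc h.mem i

lemma Near.midpoint (h : Near S b D) {t : ℕ} (ht : t ≤ D ^ 2) {c c' : Fin k → ℤ}
    (hc : c ∈ PP S (rad S)) (hc' : c' ∈ PP S t) :
    sqn (c - c') ≤ 2 * ((t : ℤ) - rad S) + k * (4 * D + 1) := by
  let m : Fin k → ℤ := fun i => (c i + c' i) / 2
  have hex : ∃ a ∈ S, (rad S : ℤ) ≤ sqn (m - a) := by
    rcases Nat.eq_zero_or_pos (rad S) with h0 | h0
    · exact ⟨b, h.mem, by rw [h0]; exact sqn_nonneg _⟩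
    · by_contra hcon
      push Not at hcon
      have : rad S ≤ rad S - 1 := MP_4a087e_lc.rad_le ⟨m, fun a ha => by
        have := hcon a ha
        push_cast [h0]
        omega⟩
      omega
  obtain ⟨a, ha, hm⟩ := hex
  have h1 := hc a ha
  have h2 := hc' a ha
  have h3 : 4 * sqn (m - a) + sqn (c - c') ≤ 2 * sqn (c - a) + 2 * sqn (c' - a)
      + k * (4 * D + 1) := by
    have : (k : ℤ) * (4 * D + 1) = ∑ _i : Fin k, (4 * (D : ℤ) + 1) := by simp
    rw [this]
    simp only [sqn, Finset.mul_sum, ← Finset.sum_add_distrib, Pi.sub_apply]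
    refine Finset.sum_le_sum fun i _ => ?_
    have e1 := abs_le.mp (PP_abs h.rad_le hc ha i)
    have e2 := abs_le.mp (PP_abs ht hc' ha i)
    have e3 : 2 * m i = c i + c' i ∨ 2 * m i = c i + c' i - 1 := by
      simp only [m]; omega
    have e4 : 4 * (m i - a i) ^ 2 = (2 * m i - 2 * a i) ^ 2 := by ring
    rw [e4]
    rcases e3 with e3 | e3 <;> rw [e3] <;> nlinarith [e1.1, e2.1, e1.2, e2.2]
  linarith

lemma Near.corner_close (h : Near S b D) {c : Fin k → ℤ} (hc : c ∈ PP S (rad S)) :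
    sqn (corner S - c) ≤ k * (k * (4 * D + 1)) := by
  have : (k : ℤ) * (k * (4 * D + 1)) = ∑ _i : Fin k, (k : ℤ) * (4 * D + 1) := by simp
  rw [this]
  refine Finset.sum_le_sum fun i _ => ?_
  obtain ⟨c', hc', e⟩ := (h.isLeast i).1
  have h1 := h.midpoint h.rad_le hc' hc
  have h2 := sq_le_sqn (c' - c) i
  simp only [Pi.sub_apply] at h2 e ⊢
  rw [← e]
  linarith

variable {S' : Set (Fin k → ℤ)} {b' : Fin k → ℤ}

lemma Near.rad_mono (h' : Near S' b' D) (hS : S ⊆ S') : rad S ≤ rad S' :=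
  MP_4a087e_lc.rad_le (h'.nonempty.mono (PP_mono hS _))

lemma Near.corner_dist (hk : 1 ≤ k) (h : Near S b D) (h' : Near S' b' D) (hS : S ⊆ S') :
    sqn (corner S - corner S') ≤ 6 * ((rad S' : ℤ) - rad S) + 9 * (k * (k * (4 * D + 1))) := by
  obtain ⟨c, hc⟩ := h.nonempty
  obtain ⟨c', hc'⟩ := h'.nonempty
  have h1 := h.corner_close hc
  have h2 := h'.corner_close hc'
  have h3 := h.midpoint h'.rad_le hc (PP_mono hS _ hc')
  have h4 : sqn (corner S - corner S')
      ≤ 3 * sqn (corner S - c) + 3 * sqn (c - c') + 3 * sqn (corner S' - c') := by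
    simp only [sqn, Finset.mul_sum, ← Finset.sum_add_distrib, Pi.sub_apply]
    refine Finset.sum_le_sum fun i _ => ?_
    nlinarith [sq_nonneg (corner S i - c i - (c i - c' i)),
      sq_nonneg (corner S i - c i + (corner S' i - c' i)),
      sq_nonneg (c i - c' i + (corner S' i - c' i))]
  have h5 : (k : ℤ) * (4 * D + 1) ≤ k * (k * (4 * D + 1)) := by
    have : (1 : ℤ) ≤ k := by exact_mod_cast hk
    have : (0 : ℤ) ≤ k * (4 * D + 1) := by positivity
    nlinarith
  linarith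

lemma Near.corner_eq (h : Near S b D) (h' : Near S' b' D) (hS : S ⊆ S') {B N : ℕ}
    (hB : sqn (b - b') ≤ (B : ℤ) ^ 2) (hN : k * (2 * D + B) < N) (hr : rad S = rad S')
    (hsum : ((∑ i, corner S i : ℤ) : ZMod N) = (∑ i, corner S' i : ℤ)) :
    corner S = corner S' := by
  have h1 : ∀ i, corner S i ≤ corner S' i := by
    intro i
    refine (h.isLeast i).2 ?_
    obtain ⟨c, hc, e⟩ := (h'.isLeast i).1
    exact ⟨c, hr ▸ PP_mono hS _ hc, e⟩
  have h2 : ∀ i, corner S' i - corner S i ≤ 2 * D + B := by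
    intro i
    have e1 := abs_le.mp (h.corner_abs i)
    have e2 := abs_le.mp (h'.corner_abs i)
    have e3 := abs_le.mp (abs_le_of_sqn hB i)
    simp only [Pi.sub_apply] at e3
    linarith [e1.1, e2.2, e3.1]
  have h3 : (N : ℤ) ∣ ∑ i, (corner S' i - corner S i) := by
    rw [Finset.sum_sub_distrib]
    exact (ZMod.intCast_eq_intCast_iff_dvd_sub _ _ _).mp hsum
  have h4 : 0 ≤ ∑ i, (corner S' i - corner S i) :=
    Finset.sum_nonneg fun i _ => sub_nonneg.mpr (h1 i)
  have h5 : ∑ i, (corner S' i - corner S i) < N := by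
    calc ∑ i, (corner S' i - corner S i) ≤ ∑ _i : Fin k, (2 * (D : ℤ) + B) :=
          Finset.sum_le_sum fun i _ => h2 i
      _ = k * (2 * D + B) := by simp
      _ < N := by exact_mod_cast hN
  have h6 := Int.eq_zero_of_dvd_of_nonneg_of_lt h4 h5 h3
  rw [Finset.sum_eq_zero_iff_of_nonneg fun i _ => sub_nonneg.mpr (h1 i)] at h6
  funext i
  have := h6 i (Finset.mem_univ i)
  linarith

lemma PP_shift {w : Fin k → ℤ} (hS : ∀ a, a ∈ S' ↔ a - w ∈ S) (t : ℕ) (c : Fin k → ℤ) :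
    c ∈ PP S' t ↔ c - w ∈ PP S t := by
  constructor
  · intro hc a ha
    have := hc (a + w) ((hS _).mpr (by simpa using ha))
    rwa [show c - (a + w) = c - w - a by abel] at this
  · intro hc a ha
    have := hc (a - w) ((hS _).mp ha)
    rwa [show c - w - (a - w) = c - a by abel] at this

lemma rad_shift {w : Fin k → ℤ} (hS : ∀ a, a ∈ S' ↔ a - w ∈ S) : rad S' = rad S := by
  unfold rad
  congr 1
  ext t
  constructor
  · rintro ⟨c, hc⟩; exact ⟨c - w, (PP_shift hS t c).mp hc⟩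
  · rintro ⟨c, hc⟩; exact ⟨c + w, (PP_shift hS t _).mpr (by simpa using hc)⟩

lemma Near.corner_shift (h : Near S b D) {w : Fin k → ℤ} (hS : ∀ a, a ∈ S' ↔ a - w ∈ S) :
    corner S' = corner S + w := by
  funext i
  refine IsLeast.csInf_eq ?_
  rw [rad_shift hS]
  obtain ⟨⟨c, hc, e⟩, hl⟩ := h.isLeast i
  constructor
  · refine ⟨c + w, (PP_shift hS _ _).mpr (by simpa using hc), ?_⟩
    simp only [Pi.add_apply] at e ⊢
    rw [e]
  · rintro _ ⟨c', hc', rfl⟩
    have := hl ⟨c' - w, (PP_shift hS _ _).mp hc', rfl⟩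
    simp only [Pi.add_apply, Pi.sub_apply] at this ⊢
    linarith

end

end Pool.Agent.P.MP_4a087e_lc
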