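import Pool.Agent.P.MP_4a087e_lc.Weights
import Pool.Agent.P.MP_4a087e_lc.Centre

open Finset Module Submodule

namespace Pool.Agent.P.MP_4a087e_lc

variable {k : ℕ}

noncomputable def pos (a : Fin k → ℤ) : EuclideanSpace ℝ (Fin k) :=
  WithLp.toLp 2 fun i => (a i : ℝ)

lemma pos_add (a b : Fin k → ℤ) : pos (a + b) = pos a + pos b := by
  ext i; simp [pos]

lemma norm_pos_sub (a b : Fin k → ℤ) : ‖pos a - pos b‖ ^ 2 = (sqn (a - b) : ℝ) := by
  rw [EuclideanSpace.norm_sq_eq]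
  simp [pos, sqn]

lemma sqn_le_of_dist {a b : Fin k → ℤ} {B : ℕ} (h : dist (pos a) (pos b) ≤ B) :
    sqn (a - b) ≤ (B : ℤ) ^ 2 := by
  rw [dist_eq_norm] at h
  have : (sqn (a - b) : ℝ) ≤ (B : ℝ) ^ 2 := by
    rw [← norm_pos_sub]; gcongr
  exact_mod_cast this

theorem cover_core {m B D N q : ℕ} (S : (Fin (m + 1) → ℤ) → Set (Fin (m + 1) → ℤ))
    (hnear : ∀ b, Near (S b) b D)
    (hcomp : ∀ b b', sqn (b - b') ≤ (B : ℤ) ^ 2 → S b ⊆ S b' ∨ S b' ⊆ S b)
    (hper : ∀ b v a, a ∈ S (b + (N : ℤ) • v) ↔ a - (N : ℤ) • v ∈ S b)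
    (hN : (m + 1) * (2 * D + B) < N) (hq1 : 1 ≤ q) (hq : (D ^ 2 + 1) * N ≤ 2 ^ q)
    (hB : 16 * (m + 1) ≤ B ^ 2) {Q : ℝ} (hQ : 0 < Q)
    (hQ' : 6 * (D : ℝ) ^ 2 + m * (9 * ((m + 1) * ((m + 1) * (4 * D + 1)))) ≤ m * Q ^ 2) :
    ((m + 1).factorial : ℝ) ≤
      (6 * (q + 1) / (B / 4)) ^ (m + 1) * (2 * ((m + 1) * D + B / 4) * Q ^ m) := by
  classical
  have hN0 : N ≠ 0 := by omega
  have : NeZero N := ⟨hN0⟩
  have hB0 : 0 < B := by
    rcases Nat.eq_zero_or_pos B with h | h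
    · subst h; omega
    · exact h
  let κ0 : (Fin (m + 1) → ℤ) → Fin (D ^ 2 + 1) × ZMod N := fun a =>
    (⟨rad (S a), Nat.lt_succ_of_le (hnear a).rad_le⟩, ((∑ i, corner (S a) i : ℤ) : ZMod N))
  let κ : (Fin (m + 1) → ℤ) → Set.range κ0 := fun a => ⟨κ0 a, a, rfl⟩
  have hu : ∀ _i : Fin (m + 1), IsUnit (N : ℝ) := fun _ => Ne.isUnit (by exact_mod_cast hN0)
  let b := (EuclideanSpace.basisFun (Fin (m + 1)) ℝ).toBasis.isUnitSMul hu
  refine analytic_core b pos (fun a => pos (corner (S a))) κ (fun a => (rad (S a) : ℝ))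
    (α := 6) (η := 9 * ((m + 1) * ((m + 1) * (4 * D + 1)))) (T := (D : ℝ) ^ 2)
    ?_ (by positivity) (by positivity) (by norm_num) (by positivity) hQ hQ' hq1 ?_ ?_ ?_ ?_ ?_ ?_ ?_
  · rintro ⟨_, a, rfl⟩
    exact ⟨a, rfl⟩
  · refine le_trans (Fintype.card_subtype_le _) ?_
    simpa [ZMod.card] using hq
  · intro g hg a
    obtain ⟨v, rfl⟩ := (Submodule.mem_span_range_iff_exists_fun ℤ).mp hg
    have hg : ∑ i, v i • b i = pos ((N : ℤ) • v) := by
      ext j
      simp [b, pos, Basis.isUnitSMul_apply, Pi.single_apply, mul_comm]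
    have h1 := rad_shift (hper a v)
    have h2 := (hnear a).corner_shift (hper a v)
    refine ⟨a + (N : ℤ) • v, ?_, ?_, ?_⟩
    · rw [hg, pos_add]; exact add_comm _ _
    · apply Subtype.ext
      refine Prod.ext (Fin.ext h1) ?_
      simp only [κ, κ0, h2]
      simp [Finset.sum_add_distrib]
    · rw [hg, h2, pos_add]; exact add_comm _ _
  · intro x
    refine ⟨fun i => round (x i), ?_⟩
    rw [dist_eq_norm]
    refine (pow_le_pow_iff_left₀ (norm_nonneg _) (by positivity) two_ne_zero).mp ?_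
    rw [EuclideanSpace.norm_sq_eq]
    calc ∑ i, ‖(x - pos fun i => round (x i)) i‖ ^ 2 ≤ ∑ _i : Fin (m + 1), (1 / 2 : ℝ) ^ 2 := by
          refine Finset.sum_le_sum fun i _ => ?_
          have := abs_sub_round (x i)
          gcongr
          simpa [pos] using this
      _ = (m + 1) / 4 := by simp; ring
      _ ≤ _ := by
          have : (16 * (m + 1) : ℝ) ≤ B ^ 2 := by exact_mod_cast hB
          nlinarith
  · intro a
    refine (pow_le_pow_iff_left₀ (norm_nonneg _) (by positivity) two_ne_zero).mp ?_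
    rw [norm_pos_sub]
    have : sqn (corner (S a) - a) ≤ ((m + 1) * D : ℤ) ^ 2 := by
      calc sqn (corner (S a) - a) ≤ ∑ _i : Fin (m + 1), (D : ℤ) ^ 2 := by
            refine Finset.sum_le_sum fun i _ => ?_
            rw [← sq_abs]
            exact pow_le_pow_left₀ (abs_nonneg _) ((hnear a).corner_abs i) 2
        _ = (m + 1) * D ^ 2 := by simp
        _ ≤ _ := by
            have : (0 : ℤ) ≤ m := by positivity
            nlinarith [sq_nonneg (D : ℤ), mul_nonneg this (sq_nonneg (D : ℤ)),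
              mul_nonneg (mul_nonneg this this) (sq_nonneg (D : ℤ))]
    exact_mod_cast this
  · intro a a' hd hκ
    have hd' := sqn_le_of_dist (B := B) (by linarith)
    have e := congrArg Subtype.val hκ
    have e1 : rad (S a) = rad (S a') := congrArg (fun z => z.1.1) e
    have e2 := congrArg Prod.snd e
    rcases hcomp a a' hd' with h | h
    · rw [(hnear a).corner_eq (hnear a') h hd' hN e1 e2]
    · rw [(hnear a').corner_eq (hnear a) h (by rwa [sqn_sub_comm]) hN e1.symm e2.symm]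
  · intro a
    exact ⟨by positivity, by exact_mod_cast (hnear a).rad_le⟩
  · intro a a' hd
    have hd' := sqn_le_of_dist (B := B) (by linarith)
    rw [norm_pos_sub]
    rcases hcomp a a' hd' with h | h
    · have h1 := (hnear a).corner_dist (by omega) (hnear a') h
      have h2 : ((rad (S a') : ℝ) - rad (S a)) ≤ |(rad (S a) : ℝ) - rad (S a')| := by
        rw [abs_sub_comm]; exact le_abs_self _
      have h3 : (sqn (corner (S a) - corner (S a')) : ℝ) ≤ 6 * ((rad (S a') : ℝ) - rad (S a))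
          + 9 * ((m + 1) * ((m + 1) * (4 * D + 1))) := by exact_mod_cast h1
      linarith
    · have h1 := (hnear a').corner_dist (by omega) (hnear a) h
      rw [sqn_sub_comm] at h1
      have h2 : ((rad (S a) : ℝ) - rad (S a')) ≤ |(rad (S a) : ℝ) - rad (S a')| := le_abs_self _
      have h3 : (sqn (corner (S a) - corner (S a')) : ℝ) ≤ 6 * ((rad (S a) : ℝ) - rad (S a'))
          + 9 * ((m + 1) * ((m + 1) * (4 * D + 1))) := by exact_mod_cast h1
      linarith

end Pool.Agent.P.MP_4a087e_lc
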