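import Mathlib

namespace Pool.Agent.P.MP_4a087e_lc

/-- `f` is a `d`-diameter ordering of `G`: it is injective and any two vertices of an increasing
path are at distance at most `d` in `G`. -/
def IsDiamOrdering {V : Type} (G : SimpleGraph V) (f : V → ℝ) (d : ℕ) : Prop :=
  Function.Injective f ∧ ∀ (k : ℕ) (v : Fin (k + 1) → V),
    (∀ i : Fin k, G.Adj (v (Fin.castSucc i)) (v (Fin.succ i))) → StrictMono (fun i => f (v i)) →
      ∀ i j, G.edist (v i) (v j) ≤ d

/-- `D(n)`: the least `d` such that every `n`-vertex graph has a `d`-diameter ordering. -/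
noncomputable def ordDiam (n : ℕ) : ℕ :=
  sInf {d : ℕ | ∀ G : SimpleGraph (Fin n), ∃ f : Fin n → ℝ, IsDiamOrdering G f d}

end Pool.Agent.P.MP_4a087e_lc
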