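import Mathlib

open Finset Matrix

namespace Pool.Agent.P.MP_4a087e_lc

lemma det_mul_expand {k : ℕ} {ι : Type*} [Fintype ι] [DecidableEq ι] (V : Matrix (Fin k) ι ℝ)
    (G : Matrix ι (Fin k) ℝ) :
    (V * G).det = ∑ f : Fin k → ι, (∏ b, G (f b) b) * (V.submatrix id f).det := by
  simp only [det_apply', mul_apply, Finset.prod_univ_sum, Finset.mul_sum, Fintype.piFinset_univ]
  rw [Finset.sum_comm]
  refine Finset.sum_congr rfl fun f _ => Finset.sum_congr rfl fun σ _ => ?_
  simp only [Finset.prod_mul_distrib, submatrix_apply, id]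
  ring

lemma cauchy_binet {k : ℕ} {ι : Type*} [Fintype ι] [DecidableEq ι] (V : Matrix (Fin k) ι ℝ)
    (G : Matrix ι (Fin k) ℝ) :
    (k.factorial : ℝ) * (V * G).det
      = ∑ f : Fin k → ι, (G.submatrix f id).det * (V.submatrix id f).det := by
  have h1 : ∀ τ : Equiv.Perm (Fin k), (V * G).det = ∑ f : Fin k → ι,
      ((Equiv.Perm.sign τ : ℤ) * ∏ b, G (f (τ b)) b) * (V.submatrix id f).det := by
    intro τ
    rw [det_mul_expand]
    rw [← (Equiv.arrowCongr τ.symm (Equiv.refl ι)).sum_comp]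
    refine Finset.sum_congr rfl fun f _ => ?_
    have e : (Equiv.arrowCongr τ.symm (Equiv.refl ι)) f = f ∘ τ := by
      funext b; simp
    rw [e]
    have : V.submatrix id (f ∘ τ) = (V.submatrix id f).submatrix id τ := rfl
    rw [this, det_permute']
    simp only [Function.comp]
    ring
  have h2 : (k.factorial : ℝ) * (V * G).det = ∑ _τ : Equiv.Perm (Fin k), (V * G).det := by
    simp [Fintype.card_perm]
  rw [h2, Finset.sum_congr rfl fun τ _ => h1 τ, Finset.sum_comm]
  refine Finset.sum_congr rfl fun f _ => ?_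
  rw [← Finset.sum_mul, det_apply' (G.submatrix f id)]
  rfl

lemma hadamard {k : ℕ} (w : Fin k → EuclideanSpace ℝ (Fin k)) :
    |(Matrix.of fun a j => w j a).det| ≤ ∏ j, ‖w j‖ := by
  have : Fact (Module.finrank ℝ (EuclideanSpace ℝ (Fin k)) = k) := ⟨by simp⟩
  let b := EuclideanSpace.basisFun (Fin k) ℝ
  have h := b.toBasis.orientation.abs_volumeForm_apply_le w
  rw [Orientation.volumeForm_robust' _ b, Module.Basis.det_apply] at h
  convert h using 3
  ext a j
  simp [b, Module.Basis.toMatrix_apply]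

lemma det_sum_le {k : ℕ} {ι : Type*} [Fintype ι] (v : ι → EuclideanSpace ℝ (Fin k))
    (g : ι → EuclideanSpace ℝ (Fin k) →L[ℝ] ℝ) {V : ℝ}
    (hV : ∀ f : Fin k → ι, (∀ j, g (f j) ≠ 0) → |(Matrix.of fun a j => v (f j) a).det| ≤ V) :
    (k.factorial : ℝ) * (∑ i, (g i).smulRight (v i)).det ≤ (∑ i, ‖g i‖) ^ k * V := by
  classical
  let b := EuclideanSpace.basisFun (Fin k) ℝ
  let γ : ι → EuclideanSpace ℝ (Fin k) := fun i => WithLp.toLp 2 fun a => g i (b a)
  have hγ : ∀ i, ‖γ i‖ ≤ ‖g i‖ := by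
    intro i
    have h1 : g i (γ i) = ‖γ i‖ ^ 2 := by
      conv_lhs => rw [← b.sum_repr (γ i)]
      rw [EuclideanSpace.norm_sq_eq, map_sum]
      refine Finset.sum_congr rfl fun a _ => ?_
      simp [b, γ, sq]
    have h2 := (g i).le_opNorm (γ i)
    rw [h1, Real.norm_of_nonneg (by positivity)] at h2
    rcases (norm_nonneg (γ i)).eq_or_lt with h | h
    · rw [← h]; exact norm_nonneg _
    · nlinarith
  let Vm : Matrix (Fin k) ι ℝ := Matrix.of fun a i => v i a
  let Gm : Matrix ι (Fin k) ℝ := Matrix.of fun i a => γ i a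
  have hdet : (∑ i, (g i).smulRight (v i)).det = (Vm * Gm).det := by
    rw [ContinuousLinearMap.det, ← LinearMap.det_toMatrix b.toBasis]
    congr 1
    ext a c
    simp [LinearMap.toMatrix_apply, Vm, Gm, γ, b, Matrix.mul_apply, mul_comm]
  rw [hdet, cauchy_binet, Finset.sum_pow', Fintype.piFinset_univ, Finset.sum_mul]
  refine Finset.sum_le_sum fun f _ => ?_
  have h1 : |(Gm.submatrix f id).det| ≤ ∏ j, ‖g (f j)‖ := by
    rw [← Matrix.det_transpose]
    exact (hadamard fun j => γ (f j)).trans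
      (Finset.prod_le_prod (fun j _ => norm_nonneg _) fun j _ => hγ _)
  by_cases hf : ∀ j, g (f j) ≠ 0
  · refine (le_abs_self _).trans ?_
    rw [abs_mul]
    exact mul_le_mul h1 (hV f hf) (abs_nonneg _) (Finset.prod_nonneg fun j _ => norm_nonneg _)
  · push Not at hf
    obtain ⟨j, hj⟩ := hf
    have h0 : ∏ j, ‖g (f j)‖ = 0 := Finset.prod_eq_zero (Finset.mem_univ j) (by simp [hj])
    rw [h0] at h1 ⊢
    rw [abs_nonpos_iff.mp h1]
    simp

lemma prod_le_pow_of_sum_le {m : ℕ} (a : Fin m → ℝ) (ha : ∀ j, 0 ≤ a j) {Q : ℝ} (hQ : 0 < Q)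
    (h : ∑ j, a j ≤ m * Q) : ∏ j, a j ≤ Q ^ m := by
  have h1 : ∀ j, a j ≤ Q * Real.exp (a j / Q - 1) := by
    intro j
    have := Real.add_one_le_exp (a j / Q - 1)
    calc a j = Q * (a j / Q - 1 + 1) := by field_simp; ring
      _ ≤ _ := by gcongr
  calc ∏ j, a j ≤ ∏ j, Q * Real.exp (a j / Q - 1) := Finset.prod_le_prod (fun j _ => ha j) fun j _ => h1 j
    _ = Q ^ m * Real.exp (∑ j, (a j / Q - 1)) := by
      rw [Finset.prod_mul_distrib, Real.exp_sum]; simp
    _ ≤ Q ^ m * 1 := by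
      gcongr
      rw [Real.exp_le_one_iff, Finset.sum_sub_distrib, ← Finset.sum_div]
      simp only [Finset.sum_const, Finset.card_univ, Fintype.card_fin, nsmul_eq_mul, mul_one]
      rw [sub_nonpos, div_le_iff₀ hQ]
      exact h
    _ = Q ^ m := mul_one _

lemma chain_det_le {m : ℕ} (w : Fin (m + 1) → EuclideanSpace ℝ (Fin (m + 1)))
    (τ : Fin (m + 1) → ℝ) {D α η T Q : ℝ} (hα : 0 ≤ α) (hη : 0 ≤ η) (hQ : 0 < Q)
    (hQ' : α * T + m * η ≤ m * Q ^ 2)
    (hD : ∀ j, ‖w j‖ ≤ D) (hτ : ∀ j, 0 ≤ τ j ∧ τ j ≤ T)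
    (hw : ∀ i j, ‖w i - w j‖ ^ 2 ≤ α * |τ i - τ j| + η) :
    |(Matrix.of fun a j => w j a).det| ≤ D * Q ^ m := by
  let σ := Tuple.sort τ
  have hmono : Monotone (τ ∘ σ) := Tuple.monotone_sort τ
  let u : Fin (m + 1) → EuclideanSpace ℝ (Fin (m + 1)) :=
    Fin.cases (w (σ 0)) fun j => w (σ j.succ) - w (σ j.castSucc)
  have h1 : |(Matrix.of fun a j => w j a).det| = |(Matrix.of fun a j => w (σ j) a).det| := by
    have : (Matrix.of fun a j => w (σ j) a) = (Matrix.of fun a j => w j a).submatrix id σ := rfl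
    rw [this, det_permute', abs_mul]
    rcases Int.units_eq_one_or (Equiv.Perm.sign σ) with h | h <;> simp [h]
  have h2 : (Matrix.of fun a j => w (σ j) a).det = (Matrix.of fun a j => u j a).det := by
    refine det_eq_of_forall_col_eq_smul_add_pred (fun _ => 1) (fun i => ?_) fun i j => ?_
    · simp [u]
    · simp [u]
  rw [h1, h2]
  refine (hadamard u).trans ?_
  rw [Fin.prod_univ_succ]
  have hD0 : 0 ≤ D := (norm_nonneg _).trans (hD 0)
  refine mul_le_mul (hD _) ?_ (Finset.prod_nonneg fun j _ => norm_nonneg _) hD0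
  have h3 : ∀ j : Fin m, τ (σ j.castSucc) ≤ τ (σ j.succ) := fun j => hmono j.castSucc_lt_succ.le
  have h4 : ∑ j : Fin m, (τ (σ j.succ) - τ (σ j.castSucc)) ≤ T := by
    have e1 := Fin.sum_univ_succ fun j => τ (σ j)
    have e2 := Fin.sum_univ_castSucc fun j => τ (σ j)
    rw [Finset.sum_sub_distrib]
    have := hτ (σ 0)
    have := hτ (σ (Fin.last m))
    linarith
  have h5 : ∏ j : Fin m, ‖u j.succ‖ ^ 2 ≤ (Q ^ 2) ^ m := by
    refine le_trans (Finset.prod_le_prod (fun j _ => by positivity)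
      (g := fun j => α * (τ (σ j.succ) - τ (σ j.castSucc)) + η) fun j _ => ?_) ?_
    · have := hw (σ j.succ) (σ j.castSucc)
      rwa [abs_of_nonneg (sub_nonneg.mpr (h3 j))] at this
    · refine prod_le_pow_of_sum_le _ (fun j => ?_) (by positivity) ?_
      · have := h3 j
        have : 0 ≤ τ (σ j.succ) - τ (σ j.castSucc) := by linarith
        positivity
      · rw [Finset.sum_add_distrib, ← Finset.mul_sum]
        simp only [Finset.sum_const, Finset.card_univ, Fintype.card_fin, nsmul_eq_mul]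
        have := mul_le_mul_of_nonneg_left h4 hα
        linarith
  rw [Finset.prod_pow, ← pow_mul, mul_comm 2 m, pow_mul] at h5
  exact (pow_le_pow_iff_left₀ (Finset.prod_nonneg fun j _ => norm_nonneg _) (by positivity)
    two_ne_zero).mp h5

end Pool.Agent.P.MP_4a087e_lc
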