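import Pool.Agent.P.MP_4a087e_lc.Cover
import Pool.Agent.P.MP_4a087e_lc.Defs

open Finset

namespace Pool.Agent.P.MP_4a087e_lc

variable {k n : ℕ}

/-- the graph drawn by short lattice steps -/
def latGraph (φ : (Fin k → ℤ) → Fin n) (B : ℕ) : SimpleGraph (Fin n) where
  Adj x y := x ≠ y ∧ ∃ a b, φ a = x ∧ φ b = y ∧ sqn (a - b) ≤ (B : ℤ) ^ 2
  symm := ⟨fun _ _ ⟨h, a, b, ha, hb, hab⟩ => ⟨h.symm, b, a, hb, ha, by rwa [sqn_sub_comm]⟩⟩
  loopless := ⟨fun _ h => h.1 rfl⟩

lemma dist_le_of_sqn {a b : Fin k → ℤ} {B : ℕ} (h : sqn (a - b) ≤ (B : ℤ) ^ 2) :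
    dist (pos a) (pos b) ≤ B := by
  rw [dist_eq_norm]
  refine (pow_le_pow_iff_left₀ (norm_nonneg _) (by positivity) two_ne_zero).mp ?_
  rw [norm_pos_sub]
  exact_mod_cast h

variable {φ : (Fin k → ℤ) → Fin n} {B N d : ℕ}

lemma walk_lift (hφ : ∀ a b, φ a = φ b ↔ ∃ v, a = b + (N : ℤ) • v) {x y : Fin n}
    (p : (latGraph φ B).Walk x y) :
    ∀ a, φ a = x → ∃ b, φ b = y ∧ dist (pos a) (pos b) ≤ p.length * B := by
  induction p with
  | nil => intro a ha; exact ⟨a, ha, by simp⟩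
  | cons h p ih =>
    intro a ha
    simp only [SimpleGraph.Walk.length_cons, Nat.cast_add, Nat.cast_one]
    obtain ⟨-, a0, b0, ha0, hb0, hab⟩ := h
    obtain ⟨v, rfl⟩ := (hφ a a0).mp (ha.trans ha0.symm)
    obtain ⟨b, hb, hd⟩ := ih (b0 + (N : ℤ) • v) (((hφ _ _).mpr ⟨v, rfl⟩).trans hb0)
    refine ⟨b, hb, (dist_triangle _ (pos (b0 + (N : ℤ) • v)) _).trans ?_⟩
    have : dist (pos (a0 + (N : ℤ) • v)) (pos (b0 + (N : ℤ) • v)) ≤ B :=
      dist_le_of_sqn (by simpa using hab)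
    linarith

def Step (φ : (Fin k → ℤ) → Fin n) (B : ℕ) (f : Fin n → ℝ) (a b : Fin k → ℤ) : Prop :=
  sqn (a - b) ≤ (B : ℤ) ^ 2 ∧ f (φ a) < f (φ b)

variable {f : Fin n → ℝ}

lemma exists_path {a b : Fin k → ℤ} (h : Relation.ReflTransGen (Step φ B f) a b) :
    ∃ (l : ℕ) (v : Fin (l + 1) → Fin n), v 0 = φ a ∧ v (Fin.last l) = φ b ∧
      (∀ i : Fin l, (latGraph φ B).Adj (v (Fin.castSucc i)) (v (Fin.succ i))) ∧
      ∀ i : Fin l, f (v (Fin.castSucc i)) < f (v (Fin.succ i)) := by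
  induction h using Relation.ReflTransGen.head_induction_on with
  | refl => exact ⟨0, fun _ => φ b, rfl, rfl, fun i => i.elim0, fun i => i.elim0⟩
  | @head a c hac _ ih =>
    obtain ⟨l, v, h0, hl, hadj, hlt⟩ := ih
    refine ⟨l + 1, Fin.cons (φ a) v, rfl, by simpa using hl, fun i => ?_, fun i => ?_⟩
    · refine Fin.cases ?_ (fun i => ?_) i
      · simp only [Fin.castSucc_zero, Fin.cons_zero, Fin.cons_succ, h0]
        exact ⟨fun e => absurd hac.2 (by rw [e]; exact lt_irrefl _), a, c, rfl, rfl, hac.1⟩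
      · simpa [← Fin.succ_castSucc] using hadj i
    · refine Fin.cases ?_ (fun i => ?_) i
      · simp only [Fin.castSucc_zero, Fin.cons_zero, Fin.cons_succ, h0]
        exact hac.2
      · simpa [← Fin.succ_castSucc] using hlt i

lemma anc_dist (hφ : ∀ a b, φ a = φ b ↔ ∃ v, a = b + (N : ℤ) • v)
    (hf : IsDiamOrdering (latGraph φ B) f d) (hN : 2 * (d * B) + B < N) {a b : Fin k → ℤ}
    (h : Relation.ReflTransGen (Step φ B f) a b) : dist (pos a) (pos b) ≤ (d * B : ℕ) := by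
  induction h with
  | refl => simp only [dist_self]; positivity
  | @tail b c hab hbc ih =>
    obtain ⟨l, v, h0, hl, hadj, hlt⟩ := exists_path (hab.tail hbc)
    have h1 := hf.2 l v hadj (Fin.strictMono_iff_lt_succ.mpr hlt) 0 (Fin.last l)
    rw [h0, hl] at h1
    obtain ⟨p, hp⟩ := SimpleGraph.exists_walk_of_edist_ne_top
      (ne_top_of_le_ne_top (ENat.natCast_ne_top d) h1)
    have hpl : p.length ≤ d := by
      rw [← hp] at h1; exact_mod_cast h1
    obtain ⟨c', hc', hd⟩ := walk_lift hφ p a rfl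
    have hd' : dist (pos a) (pos c') ≤ (d * B : ℕ) := by
      refine hd.trans ?_
      push_cast
      gcongr
    obtain ⟨w, rfl⟩ := (hφ c' c).mp hc'
    have h2 : dist (pos (c + (N : ℤ) • w)) (pos c) ≤ (2 * (d * B) + B : ℕ) := by
      have e1 := dist_le_of_sqn hbc.1
      have e2 := dist_triangle4 (pos (c + (N : ℤ) • w)) (pos a) (pos b) (pos c)
      rw [dist_comm] at hd'
      push_cast at *
      linarith
    have h3 : w = 0 := by
      funext i
      have := abs_le_of_sqn (sqn_le_of_dist h2) i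
      simp only [add_sub_cancel_left, Pi.smul_apply, smul_eq_mul, abs_mul, Nat.abs_cast] at this
      by_contra hne
      have h4 : 1 ≤ |w i| := Int.one_le_abs hne
      have h5 : ((2 * (d * B) + B : ℕ) : ℤ) < N := by exact_mod_cast hN
      have h6 : (0 : ℤ) ≤ N := by positivity
      nlinarith
    simpa [h3] using hd'

theorem graph_core {m B N q d n : ℕ} (hn : N ^ (m + 1) ≤ n)
    (hd : ∀ G : SimpleGraph (Fin n), ∃ f : Fin n → ℝ, IsDiamOrdering G f d)
    (hN : (m + 1) * (2 * (d * B) + B) < N) (hq1 : 1 ≤ q) (hq : ((d * B) ^ 2 + 1) * N ≤ 2 ^ q)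
    (hB : 16 * (m + 1) ≤ B ^ 2) {Q : ℝ} (hQ : 0 < Q)
    (hQ' : 6 * ((d * B : ℕ) : ℝ) ^ 2 + m * (9 * ((m + 1) * ((m + 1) * (4 * (d * B : ℕ) + 1))))
      ≤ m * Q ^ 2) :
    ((m + 1).factorial : ℝ) ≤
      (6 * (q + 1) / (B / 4)) ^ (m + 1) * (2 * ((m + 1) * (d * B : ℕ) + B / 4) * Q ^ m) := by
  have hN0 : N ≠ 0 := by omega
  have : NeZero N := ⟨hN0⟩
  obtain ⟨e⟩ : Nonempty ((Fin (m + 1) → ZMod N) ↪ Fin n) :=
    Function.Embedding.nonempty_of_card_le (by simpa [ZMod.card] using hn)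
  let φ : (Fin (m + 1) → ℤ) → Fin n := fun a => e fun i => (a i : ZMod N)
  have hφ : ∀ a b, φ a = φ b ↔ ∃ v, a = b + (N : ℤ) • v := by
    intro a b
    simp only [φ, e.injective.eq_iff]
    constructor
    · intro h
      have : ∀ i, ∃ c, a i - b i = N * c := fun i =>
        (ZMod.intCast_eq_intCast_iff_dvd_sub _ _ _).mp (congrFun h i).symm
      choose v hv using this
      refine ⟨v, funext fun i => ?_⟩
      have := hv i
      simp only [Pi.add_apply, Pi.smul_apply, smul_eq_mul]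
      linarith
    · rintro ⟨v, rfl⟩
      funext i
      simp
  obtain ⟨f, hf⟩ := hd (latGraph φ B)
  have hN' : 2 * (d * B) + B < N := lt_of_le_of_lt (Nat.le_mul_of_pos_left _ (Nat.succ_pos m)) hN
  have hshift : ∀ (w : Fin (m + 1) → ℤ) (a b : Fin (m + 1) → ℤ),
      Relation.ReflTransGen (Step φ B f) a b →
      Relation.ReflTransGen (Step φ B f) (a + (N : ℤ) • w) (b + (N : ℤ) • w) := by
    intro w a b h
    induction h with
    | refl => exact Relation.ReflTransGen.refl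
    | @tail b c _ hbc ih =>
      refine ih.tail ⟨by simpa using hbc.1, ?_⟩
      rw [(hφ (c + (N : ℤ) • w) c).mpr ⟨w, rfl⟩, (hφ (b + (N : ℤ) • w) b).mpr ⟨w, rfl⟩]
      exact hbc.2
  refine cover_core (fun b => {a | Relation.ReflTransGen (Step φ B f) a b}) (fun b => ⟨?_, ?_⟩)
    ?_ ?_ hN hq1 hq hB hQ hQ'
  · exact Relation.ReflTransGen.refl
  · intro a ha
    rw [sqn_sub_comm]
    exact sqn_le_of_dist (anc_dist hφ hf hN' ha)
  · intro b b' h
    rcases lt_trichotomy (f (φ b)) (f (φ b')) with h1 | h1 | h1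
    · exact Or.inl fun a ha => Relation.ReflTransGen.tail ha ⟨h, h1⟩
    · obtain ⟨w, rfl⟩ := (hφ _ _).mp (hf.1 h1)
      have h3 : w = 0 := by
        funext i
        have := abs_le_of_sqn h i
        simp only [add_sub_cancel_left, Pi.smul_apply, smul_eq_mul, abs_mul, Nat.abs_cast] at this
        by_contra hne
        have h4 : 1 ≤ |w i| := Int.one_le_abs hne
        have h5 : (B : ℤ) < N := by exact_mod_cast (by omega : B < N)
        have h6 : (0 : ℤ) ≤ N := by positivity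
        nlinarith
      left
      simp [h3]
    · exact Or.inr fun a ha => Relation.ReflTransGen.tail ha ⟨by rwa [sqn_sub_comm], h1⟩
  · intro b v a
    constructor
    · intro h
      have := hshift (-v) _ _ h
      simpa [sub_eq_add_neg] using this
    · intro h
      have := hshift v _ _ h
      simpa using this

end Pool.Agent.P.MP_4a087e_lc
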