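import Pool.Agent.P.MP_4a087e_lc.Graph

open Finset

namespace Pool.Agent.P.MP_4a087e_lc

lemma pow_self_le_factorial (k : ℕ) : (k : ℝ) ^ k ≤ 3 ^ k * k.factorial := by
  have h := Real.pow_div_factorial_le_exp (k : ℝ) (by positivity) k
  rw [div_le_iff₀ (by positivity)] at h
  refine h.trans ?_
  gcongr
  rw [← Real.exp_one_pow]
  gcongr
  have := Real.exp_one_lt_d9
  linarith

lemma cube_le_two_pow (s : ℕ) (hs : 2 ≤ s) : s ^ 3 ≤ 2 ^ (s ^ 2) := by
  rcases hs.eq_or_lt with rfl | h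
  · norm_num
  · calc s ^ 3 ≤ s ^ s := Nat.pow_le_pow_right (by omega) h
      _ ≤ (2 ^ s) ^ s := Nat.pow_le_pow_left Nat.lt_two_pow_self.le _
      _ = 2 ^ (s ^ 2) := by rw [← pow_mul, sq]

theorem num_core {s d n : ℕ} (hs : 2 ≤ s) (hd1 : 1 ≤ d) (hn : (s ^ 18) ^ (s ^ 2) ≤ n)
    (hd : ∀ G : SimpleGraph (Fin n), ∃ f : Fin n → ℝ, IsDiamOrdering G f d) :
    s ^ 3 ≤ 576 * (46 * (Nat.log 2 s + 1) + 1) * d := by
  set q := 46 * (Nat.log 2 s + 1) with hqdef
  rcases le_or_gt d (s ^ 3) with hds | hds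
  swap
  · nlinarith
  have hs0 : 0 < s := by omega
  obtain ⟨m, hm⟩ : ∃ m, s ^ 2 = m + 1 := ⟨s ^ 2 - 1, by
    have : 0 < s ^ 2 := by positivity
    omega⟩
  have hm3 : 3 ≤ m := by nlinarith
  have h7 : 128 ≤ s ^ 7 := le_trans (by norm_num) (Nat.pow_le_pow_left hs 7)
  have h10 : 1024 ≤ s ^ 10 := le_trans (by norm_num) (Nat.pow_le_pow_left hs 10)
  have hsR : (0 : ℝ) < s := by exact_mod_cast hs0
  have hdR : (1 : ℝ) ≤ d := by exact_mod_cast hd1
  have hmR : (m : ℝ) + 1 = s ^ 2 := by exact_mod_cast hm.symm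
  have hm3R : (3 : ℝ) ≤ m := by exact_mod_cast hm3
  have key := graph_core (m := m) (B := 24 * s ^ 6) (N := s ^ 18) (q := q) (d := d) (n := n)
    (hm ▸ hn) hd ?_ (by omega) ?_ ?_ (Q := 96 * d * s ^ 5) (by positivity) ?_
  · have hk := pow_self_le_factorial (m + 1)
    set X : ℝ := 96 * (q + 1) * d / s with hX
    have hX0 : 0 < X := by positivity
    have e : (6 * ((q : ℝ) + 1) / (((24 * s ^ 6 : ℕ) : ℝ) / 4)) ^ (m + 1) *
        (2 * ((m + 1) * ((d * (24 * s ^ 6) : ℕ) : ℝ) + ((24 * s ^ 6 : ℕ) : ℝ) / 4)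
          * (96 * d * s ^ 5) ^ m)
        = X ^ m * (12 * (q + 1) * (4 * s ^ 2 * d + 1)) := by
      have : X = 6 * ((q : ℝ) + 1) / (((24 * s ^ 6 : ℕ) : ℝ) / 4) * (96 * d * s ^ 5) := by
        rw [hX]; push_cast; field_simp; ring
      have gen : ∀ A C Y : ℝ, A ^ (m + 1) * (C * Y ^ m) = (A * Y) ^ m * (A * C) := by
        intro A C Y; rw [mul_pow]; ring
      rw [gen, ← this, hmR]
      congr 1
      push_cast
      field_simp
      ring
    rw [e] at key
    have h1 : 12 * ((q : ℝ) + 1) * (4 * s ^ 2 * d + 1) ≤ X * 2 ^ (m + 1) := by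
      have h2 : ((s : ℝ)) ^ 3 ≤ 2 ^ (m + 1) := by
        rw [← hm]; exact_mod_cast cube_le_two_pow s hs
      have h3 : (1 : ℝ) ≤ s ^ 2 * d := by nlinarith
      calc 12 * ((q : ℝ) + 1) * (4 * s ^ 2 * d + 1) ≤ 12 * (q + 1) * (8 * s ^ 2 * d) := by
            gcongr; linarith
        _ = X * s ^ 3 := by rw [hX]; field_simp; ring
        _ ≤ _ := by gcongr
    have h4 : ((m + 1 : ℕ) : ℝ) ^ (m + 1) ≤ (6 * X) ^ (m + 1) := by
      calc ((m + 1 : ℕ) : ℝ) ^ (m + 1) ≤ 3 ^ (m + 1) * (X ^ m * (X * 2 ^ (m + 1))) := by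
            refine hk.trans ?_
            gcongr
            refine key.trans ?_
            gcongr
        _ = (6 * X) ^ (m + 1) := by
            rw [show (6 : ℝ) = 3 * 2 by norm_num, mul_pow, mul_pow]; ring
    have h5 := (pow_le_pow_iff_left₀ (by positivity) (by positivity) (Nat.succ_ne_zero m)).mp h4
    rw [← hm, hX, ← mul_div_assoc, le_div_iff₀ hsR] at h5
    have h6 : ((s ^ 3 : ℕ) : ℝ) ≤ ((576 * (q + 1) * d : ℕ) : ℝ) := by
      push_cast at h5 ⊢
      nlinarith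
    exact_mod_cast h6
  · rw [← hm]
    have h1 : s ^ 6 ≤ s ^ 9 := Nat.pow_le_pow_right hs0 (by norm_num)
    have h2 : 0 < s ^ 11 := by positivity
    calc s ^ 2 * (2 * (d * (24 * s ^ 6)) + 24 * s ^ 6)
        ≤ s ^ 2 * (2 * (s ^ 3 * (24 * s ^ 6)) + 24 * s ^ 9) := by gcongr
      _ = 72 * s ^ 11 := by ring
      _ < 128 * s ^ 11 := by omega
      _ ≤ s ^ 7 * s ^ 11 := by gcongr
      _ = s ^ 18 := by ring
  · have h2 : 0 < s ^ 18 := by positivity
    calc ((d * (24 * s ^ 6)) ^ 2 + 1) * s ^ 18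
        ≤ ((s ^ 3 * (24 * s ^ 6)) ^ 2 + s ^ 18) * s ^ 18 := by gcongr; omega
      _ = 577 * s ^ 36 := by ring
      _ ≤ s ^ 10 * s ^ 36 := by gcongr; omega
      _ = s ^ 46 := by ring
      _ ≤ (2 ^ (Nat.log 2 s + 1)) ^ 46 :=
          Nat.pow_le_pow_left (Nat.lt_pow_succ_log_self (by norm_num) s).le _
      _ = 2 ^ q := by rw [← pow_mul, hqdef, mul_comm]
  · rw [← hm]
    have h1 : s ^ 2 ≤ s ^ 12 := Nat.pow_le_pow_right hs0 (by norm_num)
    calc 16 * s ^ 2 ≤ 576 * s ^ 12 := by omega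
      _ = _ := by ring
  · rw [hmR]
    push_cast
    have hs1 : (1 : ℝ) ≤ s := by exact_mod_cast hs0
    set D : ℝ := d * (24 * s ^ 6) with hD
    have hD1 : 24 * (s : ℝ) ^ 6 ≤ D := by rw [hD]; nlinarith [pow_pos hsR 6]
    have hs6 : (1 : ℝ) ≤ s ^ 6 := one_le_pow₀ hs1
    have h1 : (m : ℝ) * (9 * (s ^ 2 * (s ^ 2 * (4 * D + 1)))) ≤ 2 * D ^ 2 := by
      calc (m : ℝ) * (9 * (s ^ 2 * (s ^ 2 * (4 * D + 1))))
          ≤ s ^ 2 * (9 * (s ^ 2 * (s ^ 2 * (5 * D)))) := by gcongr <;> linarith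
        _ = 45 * s ^ 6 * D := by ring
        _ ≤ 2 * D ^ 2 := by nlinarith
    have h2 : 8 * D ^ 2 ≤ m * (96 * d * s ^ 5) ^ 2 := by
      calc 8 * D ^ 2 = (s ^ 2 / 2) * (96 * d * s ^ 5) ^ 2 := by rw [hD]; ring
        _ ≤ _ := by gcongr; linarith
    linarith

lemma trivial_mem (n : ℕ) (G : SimpleGraph (Fin n)) :
    IsDiamOrdering G (fun i => (i.1 : ℝ)) n := by
  refine ⟨fun i j h => Fin.ext (Nat.cast_injective (R := ℝ) h), fun k v hadj hmono i j => ?_⟩
  have hinj : Function.Injective v := fun a b h => hmono.injective (by simp only [h])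
  have hk : k + 1 ≤ n := by simpa using Fintype.card_le_of_injective v hinj
  have h : ∀ t (i j : Fin (k + 1)), i.1 + t = j.1 → G.edist (v i) (v j) ≤ t := by
    intro t
    induction t with
    | zero => intro i j h; rw [show i = j from Fin.ext h]; simp
    | succ t ih =>
      intro i j h
      have hj := j.2
      let j' : Fin k := ⟨i.1 + t, by omega⟩
      have e : j = j'.succ := Fin.ext (by simp [j']; omega)
      have h1 := ih i j'.castSucc (by simp [j'])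
      have h2 := SimpleGraph.edist_eq_one_iff_adj.mpr (hadj j')
      rw [e]
      refine (SimpleGraph.edist_triangle (v := v j'.castSucc)).trans ?_
      rw [h2]
      push_cast
      gcongr
  rcases le_total i j with hij | hij
  · refine (h (j - i) i j (by omega)).trans ?_
    exact_mod_cast (by omega)
  · rw [SimpleGraph.edist_comm]
    refine (h (i - j) j i (by omega)).trans ?_
    exact_mod_cast (by omega)

lemma ordDiam_spec (n : ℕ) (G : SimpleGraph (Fin n)) :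
    ∃ f : Fin n → ℝ, IsDiamOrdering G f (ordDiam n) :=
  Nat.sInf_mem (s := {d : ℕ | ∀ G : SimpleGraph (Fin n), ∃ f : Fin n → ℝ, IsDiamOrdering G f d})
    ⟨n, fun G => ⟨_, trivial_mem n G⟩⟩ G

lemma one_le_ordDiam {n : ℕ} (hn : 2 ≤ n) : 1 ≤ ordDiam n := by
  obtain ⟨f, hf, h⟩ := ordDiam_spec n ⊤
  have key : ∀ x y : Fin n, f x < f y → 1 ≤ ordDiam n := by
    intro x y hxy
    have hne : x ≠ y := fun e => absurd hxy (by rw [e]; exact lt_irrefl _)
    have := h 1 ![x, y] (fun i => by fin_cases i; simpa using hne)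
      (Fin.strictMono_iff_lt_succ.mpr fun i => by fin_cases i; simpa using hxy) 0 1
    have h1 : (⊤ : SimpleGraph (Fin n)).edist x y = 1 :=
      SimpleGraph.edist_eq_one_iff_adj.mpr hne
    simp only [Matrix.cons_val_zero, Matrix.cons_val_one, h1] at this
    exact_mod_cast this
  rcases lt_trichotomy (f ⟨0, by omega⟩) (f ⟨1, by omega⟩) with h1 | h1 | h1
  · exact key _ _ h1
  · simpa using hf h1
  · exact key _ _ h1

lemma log_lower {s n : ℕ} (hs : 2 ≤ s) (hge : (s ^ 18) ^ (s ^ 2) ≤ n) :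
    18 * (s : ℝ) ^ 2 * Real.log s ≤ Real.log n := by
  have hs0 : (0 : ℝ) < s := by exact_mod_cast (by omega : 0 < s)
  have : ((s : ℝ) ^ 18) ^ (s ^ 2) ≤ n := by exact_mod_cast hge
  have h := Real.log_le_log (pow_pos (pow_pos hs0 _) _) this
  rw [Real.log_pow, Real.log_pow] at h
  push_cast at h
  calc _ = (s : ℝ) ^ 2 * (18 * Real.log s) := by ring
    _ ≤ _ := h

lemma log_succ_le {s : ℝ} (hs : 2 ≤ s) :
    (s + 1) ^ 2 * (18 * Real.log (s + 1)) ≤ 144 * s ^ 2 * Real.log s := by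
  have h1 : Real.log (s + 1) ≤ 2 * Real.log s := by
    have : Real.log (s + 1) ≤ Real.log (s ^ 2) := Real.log_le_log (by positivity) (by nlinarith)
    rwa [Real.log_pow] at this
  have h2 : 0 ≤ Real.log (s + 1) := Real.log_nonneg (by linarith)
  calc _ ≤ (2 * s) ^ 2 * (18 * (2 * Real.log s)) := by gcongr; linarith
    _ = _ := by ring

lemma log_upper {s n : ℕ} (hs : 2 ≤ s) (hn : 0 < n) (hlt : n ≤ ((s + 1) ^ 18) ^ ((s + 1) ^ 2)) :
    Real.log n ≤ 144 * (s : ℝ) ^ 2 * Real.log s := by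
  have hn0 : (0 : ℝ) < n := by exact_mod_cast hn
  have : (n : ℝ) ≤ (((s : ℝ) + 1) ^ 18) ^ ((s + 1) ^ 2) := by exact_mod_cast hlt
  have h := Real.log_le_log hn0 this
  rw [Real.log_pow, Real.log_pow] at h
  push_cast at h
  exact h.trans (log_succ_le (by exact_mod_cast hs))

lemma real_part {s d g L : ℝ} (hs : 2 ≤ s) (hd : 0 ≤ d) (hg0 : 0 ≤ g)
    (hg : g * Real.log 2 ≤ Real.log s) (hL1 : 18 * s ^ 2 * Real.log s ≤ L)
    (hL2 : L ≤ 144 * s ^ 2 * Real.log s) (hcore : s ^ 3 ≤ 576 * (46 * (g + 1) + 1) * d) :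
    1 / (1728 * (576 * 93)) * L ^ (3 / 2 : ℝ) / Real.log L ^ (5 / 2 : ℝ) ≤ d := by
  have hl2 : (0.69 : ℝ) ≤ Real.log 2 := by have := Real.log_two_gt_d9; linarith
  have hls : Real.log 2 ≤ Real.log s := Real.log_le_log (by norm_num) hs
  have hs2 : 0 < s ^ 2 := by positivity
  set l := Real.log L with hl
  have hl1 : 2 * Real.log s ≤ l := by
    have : Real.log (s ^ 2) ≤ l := Real.log_le_log hs2 (by nlinarith)
    rwa [Real.log_pow] at this
  have hl0 : 1 ≤ l := by linarith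
  have hlog : g ≤ l := by nlinarith
  have hc : s ^ 3 ≤ 576 * 93 * l * d := by
    refine hcore.trans ?_
    gcongr ?_ * _
    linarith
  have hL0 : 0 ≤ L := le_trans (by nlinarith) hL1
  have h32 : L ^ (3 / 2 : ℝ) ≤ 1728 * s ^ 3 * l ^ (3 / 2 : ℝ) := by
    have h1 : L ≤ (12 * s) ^ 2 * l := by nlinarith
    calc L ^ (3 / 2 : ℝ) ≤ ((12 * s) ^ 2 * l) ^ (3 / 2 : ℝ) := by gcongr
      _ = (12 * s) ^ 3 * l ^ (3 / 2 : ℝ) := by
          rw [Real.mul_rpow (by positivity) (by positivity), ← Real.rpow_natCast,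
            ← Real.rpow_mul (by positivity), ← Real.rpow_natCast]
          norm_num
      _ = _ := by ring
  have h52 : l ^ (5 / 2 : ℝ) = l * l ^ (3 / 2 : ℝ) := by
    rw [show (5 / 2 : ℝ) = 1 + 3 / 2 by norm_num, Real.rpow_add (by linarith), Real.rpow_one]
  have hp : 0 < l ^ (3 / 2 : ℝ) := by positivity
  rw [h52, div_le_iff₀ (by positivity)]
  calc 1 / (1728 * (576 * 93)) * L ^ (3 / 2 : ℝ)
      ≤ 1 / (1728 * (576 * 93)) * (1728 * (576 * 93 * l * d) * l ^ (3 / 2 : ℝ)) := by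
        gcongr
        refine h32.trans ?_
        gcongr
    _ = _ := by ring

lemma natLog_le {s : ℕ} (hs : 2 ≤ s) : (Nat.log 2 s : ℝ) * Real.log 2 ≤ Real.log s := by
  have : (2 : ℝ) ^ Nat.log 2 s ≤ s := by exact_mod_cast Nat.pow_log_le_self 2 (by omega)
  have h := Real.log_le_log (by positivity) this
  rwa [Real.log_pow] at h

lemma exists_scale {n : ℕ} (hn : 2 ^ 72 ≤ n) : ∃ s, 2 ≤ s ∧ (s ^ 18) ^ (s ^ 2) ≤ n ∧
    n ≤ ((s + 1) ^ 18) ^ ((s + 1) ^ 2) := by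
  classical
  have hex : ∃ s, n < ((s + 1) ^ 18) ^ ((s + 1) ^ 2) := by
    refine ⟨n, ?_⟩
    rw [← pow_mul]
    exact lt_of_lt_of_le (Nat.lt_succ_self n) (Nat.le_self_pow (by positivity) _)
  have hlt := Nat.find_spec hex
  have hmin := fun m (hm : m < Nat.find hex) => Nat.find_min hex hm
  generalize Nat.find hex = s at hlt hmin
  have hs : 2 ≤ s := by
    by_contra h
    have : s = 0 ∨ s = 1 := by omega
    rcases this with rfl | rfl
    · norm_num at hlt hn; omega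
    · norm_num at hlt hn; omega
  refine ⟨s, hs, ?_, hlt.le⟩
  have := hmin (s - 1) (by omega)
  rw [show s - 1 + 1 = s by omega] at this
  exact not_lt.mp this

theorem main : ∃ c : ℝ, 0 < c ∧ ∃ n₀ : ℕ, ∀ n ≥ n₀,
    c * Real.log n ^ (3 / 2 : ℝ) / Real.log (Real.log n) ^ (5 / 2 : ℝ) ≤ ordDiam n := by
  refine ⟨1 / (1728 * (576 * 93)), by norm_num, 2 ^ 72, fun n hn => ?_⟩
  obtain ⟨s, hs, hge, hle⟩ := exists_scale hn
  have hn2 : 2 ≤ n := le_trans (by norm_num) hn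
  have hcore := num_core hs (one_le_ordDiam hn2) hge (ordDiam_spec n)
  exact real_part (by exact_mod_cast hs) (Nat.cast_nonneg _) (Nat.cast_nonneg _) (natLog_le hs)
    (log_lower hs hge) (log_upper hs (by omega) hle) (by exact_mod_cast hcore)

end Pool.Agent.P.MP_4a087e_lc
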