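import Mathlib

open MeasureTheory Set Module Submodule Polynomial
open scoped NNReal ENNReal

namespace Pool.Agent.P.MP_4a087e_lc

variable {E : Type*} [NormedAddCommGroup E] [NormedSpace ℝ E] [FiniteDimensional ℝ E]

lemma det_one_add_ne_zero (A : E →L[ℝ] E) (hA : ‖A‖ < 1) :
    (ContinuousLinearMap.id ℝ E + A).det ≠ 0 := by
  intro h
  have h1 : LinearMap.ker ((ContinuousLinearMap.id ℝ E + A : E →L[ℝ] E) : E →ₗ[ℝ] E) ≠ ⊥ :=
    LinearMap.det_eq_zero_iff_ker_ne_bot.mp h
  obtain ⟨v, hv, hv0⟩ := (Submodule.ne_bot_iff _).mp h1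
  have h2 : v + A v = 0 := by simpa using hv
  have h3 : ‖v‖ = ‖A v‖ := by
    rw [eq_neg_of_add_eq_zero_left h2]
    simp only [norm_neg]
    rw [← eq_neg_of_add_eq_zero_left h2]
  have h4 := A.le_opNorm v
  have h5 : 0 < ‖v‖ := norm_pos_iff.mpr hv0
  nlinarith

lemma det_one_add_pos (A : E →L[ℝ] E) (hA : ‖A‖ < 1) :
    0 < (ContinuousLinearMap.id ℝ E + A).det := by
  by_contra hneg
  push Not at hneg
  have hc : Continuous fun s : ℝ => (ContinuousLinearMap.id ℝ E + s • A).det :=
    ContinuousLinearMap.continuous_det.comp (by fun_prop)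
  have h := intermediate_value_Icc' (zero_le_one' ℝ) hc.continuousOn
  have h0 : (0 : ℝ) ∈ Icc ((ContinuousLinearMap.id ℝ E + (1 : ℝ) • A).det)
      ((ContinuousLinearMap.id ℝ E + (0 : ℝ) • A).det) := by
    constructor
    · simpa using hneg
    · simp [ContinuousLinearMap.det]
  obtain ⟨s, hs, hs0⟩ := h h0
  refine det_one_add_ne_zero (s • A) ?_ hs0
  rw [norm_smul, Real.norm_of_nonneg hs.1]
  have := norm_nonneg A
  nlinarith [hs.2]

lemma exists_poly_det (A : E →L[ℝ] E) : ∃ q : ℝ[X], q.natDegree ≤ finrank ℝ E ∧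
    ∀ t : ℝ, q.eval t = (ContinuousLinearMap.id ℝ E + t • A).det := by
  classical
  let b := Module.finBasis ℝ E
  let M := LinearMap.toMatrix b b (A : E →ₗ[ℝ] E)
  refine ⟨Matrix.det ((X : ℝ[X]) • M.map C + (1 : Matrix _ _ ℝ).map C), ?_, fun t => ?_⟩
  · simpa using Polynomial.natDegree_det_X_add_C_le M 1
  · rw [ContinuousLinearMap.det, ← LinearMap.det_toMatrix b]
    have := RingHom.map_det (Polynomial.evalRingHom t)
      ((X : ℝ[X]) • M.map C + (1 : Matrix _ _ ℝ).map C)
    simp only [coe_evalRingHom] at this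
    rw [this]
    congr 1
    ext i j
    simp [M, Matrix.one_apply, add_comm, apply_ite (eval t)]
    ring

lemma exists_interp (n : ℕ) (δ : ℝ) (hδ : 0 < δ) : ∃ (t lam : Fin (n + 1) → ℝ),
    (∀ i, 0 ≤ t i ∧ t i < δ) ∧ ∑ i, lam i = 1 ∧
    ∀ q : ℝ[X], q.natDegree ≤ n → q.eval 1 = ∑ i, lam i * q.eval (t i) := by
  classical
  let t : Fin (n + 1) → ℝ := fun i => (i : ℝ) * (δ / (n + 1))
  have hpos : 0 < δ / (n + 1) := by positivity
  have hinj : Set.InjOn t (Finset.univ : Finset (Fin (n + 1))) := by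
    intro i _ j _ h
    have : (i : ℝ) = j := mul_right_cancel₀ hpos.ne' h
    exact Fin.ext (by exact_mod_cast this)
  refine ⟨t, fun i => (Lagrange.basis Finset.univ t i).eval 1, fun i => ⟨by positivity, ?_⟩, ?_, ?_⟩
  · have : (i : ℝ) < n + 1 := by exact_mod_cast i.2
    calc (i : ℝ) * (δ / (n + 1)) < (n + 1) * (δ / (n + 1)) := by gcongr
      _ = δ := by field_simp
  · rw [← Polynomial.eval_finsetSum, Lagrange.sum_basis hinj Finset.univ_nonempty]
    simp
  · intro q hq
    have hd : q.degree < (Finset.univ : Finset (Fin (n + 1))).card := by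
      refine lt_of_le_of_lt Polynomial.degree_le_natDegree ?_
      simp only [Finset.card_univ, Fintype.card_fin]
      exact_mod_cast Nat.lt_succ_of_le hq
    conv_lhs => rw [Lagrange.eq_interpolate hinj hd]
    rw [Lagrange.interpolate_apply, Polynomial.eval_finsetSum]
    refine Finset.sum_congr rfl fun i _ => ?_
    simp [mul_comm]

variable [MeasurableSpace E] [BorelSpace E]

lemma small_t {ι : Type*} [Finite ι] (b : Basis ι ℝ E) {u : E → E} {K : ℝ≥0}
    (hu : LipschitzWith K u) (hK : K < 1)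
    (hper : ∀ (g : span ℤ (Set.range b)) (x : E), u (g +ᵥ x) = u x) :
    ∫⁻ x in ZSpan.fundamentalDomain b,
      ENNReal.ofReal |(ContinuousLinearMap.id ℝ E + fderiv ℝ u x).det| ∂μH[finrank ℝ E]
      = μH[finrank ℝ E] (ZSpan.fundamentalDomain b) := by
  set μ : Measure E := μH[finrank ℝ E] with hμ
  set D := ZSpan.fundamentalDomain b with hD
  have hDm : MeasurableSet D := ZSpan.fundamentalDomain_measurableSet b
  let G : E → E := fun x => x + u x
  have happ : ApproximatesLinearOn G
      ((ContinuousLinearEquiv.refl ℝ E : E ≃L[ℝ] E) : E →L[ℝ] E) univ K := by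
    intro x _ y _
    have := hu.dist_le_mul x y
    simp only [dist_eq_norm] at this
    simpa [G, add_sub_add_comm] using this
  have hc : Subsingleton E ∨
      K < ‖((ContinuousLinearEquiv.refl ℝ E : E ≃L[ℝ] E).symm : E →L[ℝ] E)‖₊⁻¹ := by
    rcases subsingleton_or_nontrivial E with h | h
    · exact Or.inl h
    · right
      simpa using hK
  have : CompleteSpace E := FiniteDimensional.complete ℝ E
  let H : E ≃ₜ E := happ.toHomeomorph G hc
  have hH : ∀ x, H x = G x := fun x => rfl
  have hGinj : Function.Injective G := H.injective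
  have hGeq : ∀ (g : span ℤ (Set.range b)) (x : E), G (g +ᵥ x) = g +ᵥ G x := by
    intro g x
    simp only [G, hper]
    simp [Submodule.vadd_def, add_assoc]
  have hGL : LipschitzWith (1 + K) G := LipschitzWith.id.add hu
  have hfd : IsAddFundamentalDomain (span ℤ (Set.range b)) (G '' D) μ := by
    refine IsAddFundamentalDomain.mk' ?_ fun x => ?_
    · exact (H.measurableEmbedding.measurableSet_image.mpr hDm).nullMeasurableSet
    · obtain ⟨y, rfl⟩ := H.surjective x
      rw [hH]
      have : ∀ g : span ℤ (Set.range b), g +ᵥ G y ∈ G '' D ↔ g +ᵥ y ∈ D := by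
        intro g
        rw [← hGeq, hGinj.mem_set_image]
      simp only [this]
      exact ZSpan.exist_unique_vadd_mem_fundamentalDomain b y
  have hvol : μ (G '' D) = μ D := by
    have : VAddInvariantMeasure (span ℤ (Set.range b)) E μ :=
      inferInstanceAs <| VAddInvariantMeasure (span ℤ (Set.range b)).toAddSubgroup E μ
    exact hfd.measure_eq (ZSpan.isAddFundamentalDomain b μ)
  let S : Set E := {x | DifferentiableAt ℝ u x}
  have hS : MeasurableSet S := measurableSet_of_differentiableAt ℝ u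
  have hSae : ∀ᵐ x ∂μ, x ∈ S := hu.ae_differentiableAt
  have hDS : (D ∩ S : Set E) =ᵐ[μ] D := by
    filter_upwards [hSae] with x hx
    simp only [eq_iff_iff]
    exact ⟨fun h => h.1, fun h => ⟨h, hx⟩⟩
  have h1 := lintegral_abs_det_fderiv_eq_addHaar_image μ (hDm.inter hS)
    (f := G) (f' := fun x => ContinuousLinearMap.id ℝ E + fderiv ℝ u x)
    (fun x hx => ((hasFDerivAt_id x).add hx.2.hasFDerivAt).hasFDerivWithinAt) hGinj.injOn
  rw [← setLIntegral_congr hDS, h1, ← hvol]
  refine le_antisymm (measure_mono (image_mono inter_subset_left)) ?_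
  have h2 : G '' D ⊆ G '' (D ∩ S) ∪ G '' Sᶜ := by
    rintro _ ⟨x, hx, rfl⟩
    by_cases h : x ∈ S
    · exact Or.inl ⟨x, ⟨hx, h⟩, rfl⟩
    · exact Or.inr ⟨x, h, rfl⟩
  have h3 : μ (G '' Sᶜ) = 0 := by
    have := hGL.hausdorffMeasure_image_le (d := finrank ℝ E) (by positivity) Sᶜ
    have h0 : μ Sᶜ = 0 := hSae
    rw [← hμ, h0, mul_zero] at this
    exact le_antisymm this zero_le
  calc μ (G '' D) ≤ μ (G '' (D ∩ S)) + μ (G '' Sᶜ) :=
        (measure_mono h2).trans (measure_union_le _ _)
    _ = _ := by rw [h3, add_zero]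

/-- A periodic Lipschitz perturbation of the identity cannot shrink volume everywhere. -/
theorem null_lagrangian {ι : Type*} [Finite ι] (b : Basis ι ℝ E) {u : E → E} {K : ℝ≥0}
    (hu : LipschitzWith K u)
    (hper : ∀ (g : span ℤ (Set.range b)) (x : E), u (g +ᵥ x) = u x) {θ : ℝ}
    (hθ : ∀ᵐ x ∂(μH[finrank ℝ E] : Measure E),
      (ContinuousLinearMap.id ℝ E + fderiv ℝ u x).det ≤ θ) : 1 ≤ θ := by
  set μ : Measure E := μH[finrank ℝ E] with hμ
  set D := ZSpan.fundamentalDomain b with hD
  have hDfin : μ D ≠ ∞ := (ZSpan.fundamentalDomain_isBounded b).measure_lt_top.ne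
  have hD0 : μ D ≠ 0 := ZSpan.measure_fundamentalDomain_ne_zero b
  obtain ⟨t, lam, ht, hlam, hq⟩ := exists_interp (finrank ℝ E) (1 / (K + 1)) (by positivity)
  let f : ℝ → E → ℝ := fun s x => (ContinuousLinearMap.id ℝ E + s • fderiv ℝ u x).det
  have hfm : ∀ s, Measurable (f s) := by
    intro s
    refine ContinuousLinearMap.continuous_det.measurable.comp ?_
    exact measurable_const.add ((measurable_fderiv ℝ u).const_smul s)
  have hint : ∀ i, IntegrableOn (f (t i)) D μ ∧ ∫ x in D, f (t i) x ∂μ = μ.real D := by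
    intro i
    have htK : t i * K < 1 := by
      have h1 := (ht i).2
      rw [lt_div_iff₀ (by positivity)] at h1
      nlinarith [(ht i).1]
    have hu' : LipschitzWith (‖t i‖₊ * K) (fun x => t i • u x) := (lipschitzWith_smul (t i)).comp hu
    have hK' : ‖t i‖₊ * K < 1 := by
      rw [← NNReal.coe_lt_coe]
      simpa [abs_of_nonneg (ht i).1] using htK
    have h1 := small_t b hu' hK' (fun g x => by rw [hper])
    have hpos : ∀ x, 0 ≤ f (t i) x := by
      intro x
      refine (det_one_add_pos _ ?_).le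
      rw [norm_smul, Real.norm_of_nonneg (ht i).1]
      have := norm_fderiv_le_of_lipschitz ℝ (x₀ := x) hu
      nlinarith [(ht i).1]
    have h2 : ∀ x, fderiv ℝ (fun x => t i • u x) x = t i • fderiv ℝ u x := fun x =>
      congrFun (fderiv_const_smul_field (𝕜 := ℝ) (f := u) (t i)) x
    simp only [h2] at h1
    have h3 : ∫⁻ x in D, ENNReal.ofReal (f (t i) x) ∂μ = μ D := by
      rw [← h1]
      refine lintegral_congr fun x => ?_
      rw [abs_of_nonneg (hpos x)]
    have h4 : IntegrableOn (f (t i)) D μ := by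
      refine ⟨(hfm _).aestronglyMeasurable, ?_⟩
      rw [hasFiniteIntegral_iff_ofReal (Filter.Eventually.of_forall hpos), h3]
      exact hDfin.lt_top
    refine ⟨h4, ?_⟩
    rw [integral_eq_lintegral_of_nonneg_ae (Filter.Eventually.of_forall hpos)
      (hfm _).aestronglyMeasurable, h3]
    rfl
  have hsum : f 1 = fun x => ∑ i, lam i * f (t i) x := by
    funext x
    obtain ⟨q, hq1, hq2⟩ := exists_poly_det (fderiv ℝ u x)
    simp only [f, ← hq2]
    exact hq q hq1
  have hint1 : IntegrableOn (f 1) D μ := by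
    rw [hsum]
    exact integrable_finsetSum _ fun i _ => (hint i).1.const_mul _
  have hval : ∫ x in D, f 1 x ∂μ = μ.real D := by
    rw [hsum, integral_finsetSum _ fun i _ => (hint i).1.const_mul _]
    simp only [integral_const_mul, fun i => (hint i).2]
    rw [← Finset.sum_mul, hlam, one_mul]
  have hle : ∫ x in D, f 1 x ∂μ ≤ ∫ x in D, θ ∂μ := by
    refine integral_mono_ae hint1 (integrableOn_const hDfin) ?_
    refine ae_restrict_of_ae ?_
    filter_upwards [hθ] with x hx
    simpa [f] using hx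
  rw [hval, setIntegral_const, smul_eq_mul] at hle
  have hp : 0 < μ.real D := ENNReal.toReal_pos hD0 hDfin
  nlinarith

end Pool.Agent.P.MP_4a087e_lc
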