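import Pool.Agent.P.MP_4a087e_lc.Defs

open Finset Relation

namespace Pool.Agent.P.MP_4a087e_lc.Up

variable {V : Type} [Fintype V] [DecidableEq V] (G : SimpleGraph V)

/-- One step of a weakly increasing walk inside `S`. -/
def Step (S : Finset V) (h : V → ℕ) (a b : V) : Prop := G.Adj a b ∧ a ∈ S ∧ b ∈ S ∧ h a ≤ h b

/-- Sets with a key along whose weakly increasing walks distances stay at most `d`. -/
def OK (d : ℕ) : Set (Finset V) :=
  {S | ∃ h : V → ℕ, ∀ x y, ReflTransGen (Step G S h) x y → G.edist x y ≤ d}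

/-- The ball of radius `T` about `x` lies in one cluster of `c`. -/
def Pad (c : V → V) (x : V) (T : ℕ) : Prop := ∀ y, G.edist x y ≤ T → c y = c x

/-- Sets padded by one of at most `i` clusterings of radius `R`. -/
def Fam (R T i : ℕ) : Set (Finset V) :=
  {S | ∃ C : Finset (V → V), C.card ≤ i ∧ (∀ c ∈ C, ∀ y, G.edist y (c y) ≤ R) ∧
    ∀ x ∈ S, ∃ c ∈ C, Pad G c x T}

/-- For all weights some member of `F` leaves at most the `φ`-discounted weight. -/
def Red (F : Set (Finset V)) (φ : V → ℝ) : Prop :=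
  ∀ w : V → ℝ, (∀ x, 0 ≤ w x) → ∃ S ∈ F, ∑ x ∈ Sᶜ, w x ≤ ∑ x, w x * φ x

variable {G}

omit [Fintype V] [DecidableEq V] in
lemma OK_empty : (∅ : Finset V) ∈ OK G 0 := by
  refine ⟨fun _ => 0, fun x y h => ?_⟩
  induction h with
  | refl => simp
  | tail _ h _ => exact absurd h.2.1 (notMem_empty _)

omit [Fintype V] [DecidableEq V] in
lemma OK_mono {d d' : ℕ} (hd : d ≤ d') : OK G d ⊆ OK G d' := fun _ ⟨h, hh⟩ =>
  ⟨h, fun x y hxy => (hh x y hxy).trans (by exact_mod_cast hd)⟩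

omit [Fintype V] [DecidableEq V] in
lemma edist_adj {a b : V} (h : G.Adj a b) : G.edist a b ≤ 1 :=
  (SimpleGraph.edist_eq_one_iff_adj.mpr h).le

omit [Fintype V] in
lemma OK_union {d d' : ℕ} {S S' : Finset V} (hS : S ∈ OK G d) (hS' : S' ∈ OK G d') :
    S ∪ S' ∈ OK G (d + d' + 1) := by
  obtain ⟨h, hh⟩ := hS
  obtain ⟨h', hh'⟩ := hS'
  refine ⟨fun x => if x ∈ S then h x else S.sup h + 1 + h' x, fun x y hxy => ?_⟩
  have key : (y ∈ S → ReflTransGen (Step G S h) x y) ∧ ∃ u w, ReflTransGen (Step G S h) x u ∧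
      G.edist u w ≤ 1 ∧ ReflTransGen (Step G S' h') w y := by
    induction hxy with
    | refl => exact ⟨fun _ => .refl, x, x, .refl, by simp, .refl⟩
    | @tail y z _ hs ih =>
      obtain ⟨hadj, hy, hz, hle⟩ := hs
      by_cases hzS : z ∈ S
      · by_cases hyS : y ∈ S
        · simp only [hzS, hyS, if_true] at hle
          have := (ih.1 hyS).tail ⟨hadj, hyS, hzS, hle⟩
          exact ⟨fun _ => this, z, z, this, by simp, .refl⟩
        · simp only [hzS, hyS, if_true, if_false] at hle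
          have : h z ≤ S.sup h := le_sup hzS
          omega
      · refine ⟨fun h => absurd h hzS, ?_⟩
        by_cases hyS : y ∈ S
        · exact ⟨y, z, ih.1 hyS, edist_adj hadj, .refl⟩
        · simp only [hzS, hyS, if_false] at hle
          obtain ⟨u, w, h1, h2, h3⟩ := ih.2
          exact ⟨u, w, h1, h2, h3.tail ⟨hadj, (mem_union.mp hy).resolve_left hyS,
            (mem_union.mp hz).resolve_left hzS, by omega⟩⟩
  obtain ⟨-, u, w, h1, h2, h3⟩ := key
  calc G.edist x y ≤ G.edist x u + (G.edist u w + G.edist w y) :=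
        SimpleGraph.edist_triangle.trans (by gcongr; exact SimpleGraph.edist_triangle)
    _ ≤ d + (1 + d') := by gcongr; exacts [hh _ _ h1, hh' _ _ h3]
    _ = _ := by push_cast; ring

omit [Fintype V] [DecidableEq V] in
lemma Pad.mono {c : V → V} {x : V} {T T' : ℕ} (h : Pad G c x T) (hT : T' ≤ T) : Pad G c x T' :=
  fun y hy => h y (hy.trans (by exact_mod_cast hT))

omit [Fintype V] [DecidableEq V] in
lemma Pad.adj {c : V → V} {x y : V} {T : ℕ} (h : Pad G c y (T + 1)) (hxy : G.Adj x y) :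
    Pad G c x T ∧ c x = c y := by
  have e : c x = c y := h x ((edist_adj hxy.symm).trans (by exact_mod_cast Nat.le_add_left 1 T))
  refine ⟨fun z hz => (h z ?_).trans e.symm, e⟩
  calc G.edist y z ≤ G.edist y x + G.edist x z := SimpleGraph.edist_triangle
    _ ≤ 1 + T := by gcongr; exact edist_adj hxy.symm
    _ = _ := by push_cast; ring

omit [Fintype V] [DecidableEq V] in
lemma exists_gap {C : Finset (V → V)} {m : ℕ} (hC : C.card ≤ m) {x : V}
    (hx : ∃ c ∈ C, Pad G c x m) : ∃ j < m, ∀ c ∈ C, Pad G c x j → Pad G c x (j + 1) := by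
  classical
  by_contra hcon
  push Not at hcon
  have key : ∀ j ≤ m, (C.filter fun c => Pad G c x j).card + j ≤ C.card := by
    intro j
    induction j with
    | zero => intro _; exact card_filter_le _ _
    | succ j ih =>
      intro hj
      obtain ⟨c, hc, h1, h2⟩ := hcon j hj
      have : (C.filter fun c => Pad G c x (j + 1)).card < (C.filter fun c => Pad G c x j).card := by
        refine card_lt_card ⟨fun c' hc' => ?_, fun hsub => ?_⟩
        · rw [mem_filter] at hc' ⊢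
          exact ⟨hc'.1, hc'.2.mono (Nat.le_succ j)⟩
        · exact h2 (mem_filter.mp (hsub (mem_filter.mpr ⟨hc, h1⟩))).2
      have := ih (by omega)
      omega
  obtain ⟨c, hc, hp⟩ := hx
  have h1 : 0 < (C.filter fun c => Pad G c x m).card := card_pos.mpr ⟨c, mem_filter.mpr ⟨hc, hp⟩⟩
  have := key m le_rfl
  omega

omit [Fintype V] [DecidableEq V] in
lemma Fam_OK (R m : ℕ) : Fam G R m m ⊆ OK G (2 * R) := by
  rintro S ⟨C, hC, hR, hS⟩
  have h1 : ∀ x, ∃ j : ℕ, x ∈ S → j < m ∧ ∀ c ∈ C, Pad G c x j → Pad G c x (j + 1) := by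
    intro x
    by_cases hx : x ∈ S
    · obtain ⟨j, hj⟩ := exists_gap hC (hS x hx)
      exact ⟨j, fun _ => hj⟩
    · exact ⟨0, fun h => absurd h hx⟩
  choose h hh using h1
  refine ⟨h, fun x y hxy => ?_⟩
  have key : ∀ c ∈ C, Pad G c y (h y) → c x = c y := by
    intro c hc
    induction hxy with
    | refl => exact fun _ => rfl
    | @tail y z _ hs ih =>
      intro hp
      obtain ⟨hadj, -, hz, hle⟩ := hs
      have := ((hh z hz).2 c hc hp).adj hadj
      exact (ih (this.1.mono hle)).trans this.2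
  rcases hxy.cases_tail with rfl | ⟨z, -, hs⟩
  · simp
  · obtain ⟨c, hc, hp⟩ := hS y hs.2.2.1
    have e := key c hc (hp.mono (hh y hs.2.2.1).1.le)
    calc G.edist x y ≤ G.edist x (c x) + G.edist (c x) y := SimpleGraph.edist_triangle
      _ ≤ R + R := by
          gcongr
          · exact hR c hc x
          · rw [e, SimpleGraph.edist_comm]; exact hR c hc y
      _ = _ := by push_cast; ring

omit [Fintype V] [DecidableEq V] in
lemma Fam_empty (R T : ℕ) : (∅ : Finset V) ∈ Fam G R T 0 :=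
  ⟨∅, le_rfl, by simp, by simp⟩

omit [Fintype V] in
lemma Fam_union {R T i j : ℕ} {S S' : Finset V} (hS : S ∈ Fam G R T i) (hS' : S' ∈ Fam G R T j) :
    S ∪ S' ∈ Fam G R T (i + j) := by
  classical
  obtain ⟨C, h1, h2, h3⟩ := hS
  obtain ⟨C', h1', h2', h3'⟩ := hS'
  refine ⟨C ∪ C', (card_union_le _ _).trans (by omega), fun c hc => ?_, fun x hx => ?_⟩
  · rcases mem_union.mp hc with h | h
    exacts [h2 c h, h2' c h]
  · rcases mem_union.mp hx with h | h
    · obtain ⟨c, hc, hp⟩ := h3 x h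
      exact ⟨c, mem_union_left _ hc, hp⟩
    · obtain ⟨c, hc, hp⟩ := h3' x h
      exact ⟨c, mem_union_right _ hc, hp⟩

lemma Red.mono {F F' : Set (Finset V)} {φ φ' : V → ℝ} (h : Red F φ) (hF : F ⊆ F')
    (hφ : ∀ x, φ x ≤ φ' x) : Red F' φ' := by
  intro w hw
  obtain ⟨S, hS, hle⟩ := h w hw
  exact ⟨S, hF hS, hle.trans (sum_le_sum fun x _ => mul_le_mul_of_nonneg_left (hφ x) (hw x))⟩

lemma Red.one {F : Set (Finset V)} (h : ∅ ∈ F) : Red F (fun _ => 1) :=
  fun w _ => ⟨∅, h, by simp⟩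

lemma Red.mul {F F' H : Set (Finset V)} {φ ψ : V → ℝ} (h : Red F φ) (h' : Red F' ψ)
    (hψ : ∀ x, 0 ≤ ψ x) (hH : ∀ S ∈ F, ∀ S' ∈ F', S ∪ S' ∈ H) :
    Red H (fun x => φ x * ψ x) := by
  intro w hw
  obtain ⟨S, hS, h1⟩ := h (fun x => w x * ψ x) fun x => mul_nonneg (hw x) (hψ x)
  obtain ⟨S', hS', h2⟩ := h' (fun x => if x ∈ Sᶜ then w x else 0) fun x => by
    split_ifs; exacts [hw x, le_rfl]
  refine ⟨S ∪ S', hH S hS S' hS', ?_⟩
  calc ∑ x ∈ (S ∪ S')ᶜ, w x = ∑ x ∈ S'ᶜ, if x ∈ Sᶜ then w x else 0 := by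
        rw [sum_ite_mem, compl_union, inter_comm]
    _ ≤ _ := h2
    _ = ∑ x ∈ Sᶜ, w x * ψ x := by
        simp only [ite_mul, zero_mul]
        rw [sum_ite_mem, univ_inter]
    _ ≤ _ := h1
    _ = _ := sum_congr rfl fun x _ => by ring

lemma Red.prod {F : ℕ → Set (Finset V)} {F' : ℕ → Set (Finset V)} {φ : ℕ → V → ℝ} (N : ℕ)
    (h : ∀ i < N, Red (F' i) (φ i)) (hφ : ∀ i x, 0 ≤ φ i x) (h0 : ∅ ∈ F 0)
    (hH : ∀ i < N, ∀ S ∈ F i, ∀ S' ∈ F' i, S ∪ S' ∈ F (i + 1)) :
    Red (F N) (fun x => ∏ i ∈ range N, φ i x) := by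
  induction N with
  | zero => simpa using Red.one h0
  | succ N ih =>
    simp only [prod_range_succ]
    exact (ih (fun i hi => h i (by omega)) fun i hi => hH i (by omega)).mul (h N (by omega))
      (hφ N) (hH N (by omega))

end Pool.Agent.P.MP_4a087e_lc.Up
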