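import Pool.Agent.P.MP_4a087e_lc.UpA

open Finset Relation

namespace Pool.Agent.P.MP_4a087e_lc.Up

open Classical in
/-- The size of the ball of radius `r` about `x`. -/
noncomputable def bs {V : Type} [Fintype V] (G : SimpleGraph V) (x : V) (r : ℕ) : ℕ :=
  (univ.filter fun y => G.edist x y ≤ r).card

variable {V : Type} [Fintype V] [DecidableEq V] {G : SimpleGraph V}

omit [DecidableEq V] in
lemma bs_pos (x : V) (r : ℕ) : 0 < bs G x r := card_pos.mpr ⟨x, by simp⟩

omit [DecidableEq V] in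
lemma bs_le (x : V) (r : ℕ) : bs G x r ≤ Fintype.card V := card_le_univ _

omit [DecidableEq V] in
lemma bs_mono (x : V) {r r' : ℕ} (h : r ≤ r') : bs G x r ≤ bs G x r' := by
  refine card_le_card fun y hy => ?_
  simp only [mem_filter, mem_univ, true_and] at hy ⊢
  exact hy.trans (by exact_mod_cast h)

open Classical in
omit [DecidableEq V] in
lemma exists_centre (a T : ℕ) (w : V → ℝ) (hw : ∀ x, 0 ≤ w x) (U : Finset V) (hne : U.Nonempty)
    (hU : ∀ x ∈ U, bs G x (a + 2 * T) ≤ 2 * bs G x a) :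
    ∃ z, (∃ x ∈ U, G.edist x z ≤ (a + 2 * T : ℕ)) ∧
      ∑ x ∈ U.filter (fun x => G.edist x z ≤ (a + 2 * T : ℕ)), w x ≤
        2 * ∑ x ∈ U.filter (fun x => G.edist x z ≤ a), w x := by
  set Z := univ.filter fun z => ∃ x ∈ U, G.edist x z ≤ (a + 2 * T : ℕ) with hZ
  have hZne : Z.Nonempty := by
    obtain ⟨x, hx⟩ := hne
    exact ⟨x, mem_filter.mpr ⟨mem_univ _, x, hx, by simp⟩⟩
  have e : ∀ r ≤ a + 2 * T, ∑ z ∈ Z, ∑ x ∈ U.filter (fun x => G.edist x z ≤ (r : ℕ)), w x =
      ∑ x ∈ U, w x * bs G x r := by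
    intro r hr
    simp only [sum_filter]
    rw [sum_comm]
    refine sum_congr rfl fun x hx => ?_
    rw [← sum_filter, sum_const, nsmul_eq_mul, mul_comm, bs]
    congr 3
    ext z
    simp only [hZ, mem_filter, mem_univ, true_and, and_iff_right_iff_imp]
    exact fun h => ⟨x, hx, h.trans (by exact_mod_cast hr)⟩
  obtain ⟨z, hz, hle⟩ := exists_le_of_sum_le (s := Z)
    (f := fun z => ∑ x ∈ U.filter (fun x => G.edist x z ≤ (a + 2 * T : ℕ)), w x)
    (g := fun z => 2 * ∑ x ∈ U.filter (fun x => G.edist x z ≤ a), w x) hZne (by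
      rw [← mul_sum, e _ le_rfl, e a (by omega), mul_sum]
      refine sum_le_sum fun x hx => ?_
      have : (bs G x (a + 2 * T) : ℝ) ≤ 2 * bs G x a := by exact_mod_cast hU x hx
      nlinarith [hw x])
  exact ⟨z, (mem_filter.mp hz).2, hle⟩

open Classical in
omit [DecidableEq V] in
lemma carve (a T : ℕ) (w : V → ℝ) (hw : ∀ x, 0 ≤ w x) (U : Finset V)
    (hU : ∀ x ∈ U, bs G x (a + 2 * T) ≤ 2 * bs G x a) :
    ∃ c : V → V, (∀ y, G.edist y (c y) ≤ (a + T : ℕ)) ∧
      ∑ x ∈ U, w x ≤ 2 * ∑ x ∈ U.filter (fun x => Pad G c x T), w x := by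
  induction U using Finset.strongInduction with
  | H U ih =>
  rcases U.eq_empty_or_nonempty with rfl | hne
  · exact ⟨id, by simp, by simp⟩
  obtain ⟨z, ⟨x₀, hx₀, hz₀⟩, hle⟩ := exists_centre a T w hw U hne hU
  set U' := U.filter fun x => ¬ G.edist x z ≤ (a + 2 * T : ℕ) with hU'
  obtain ⟨c', hc', hle'⟩ := ih U' ⟨filter_subset _ _, fun h => (mem_filter.mp (h hx₀)).2 hz₀⟩
    fun x hx => hU x (mem_filter.mp hx).1
  refine ⟨fun y => if G.edist y z ≤ (a + T : ℕ) then z else c' y, fun y => ?_, ?_⟩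
  · by_cases h : G.edist y z ≤ (a + T : ℕ)
    · simp only [h, if_true]
    · simpa only [h, if_false] using hc' y
  have tri : ∀ {x y : V} {r : ℕ}, G.edist x y ≤ T → G.edist y z ≤ r →
      G.edist x z ≤ (r + T : ℕ) := fun {x y r} h1 h2 =>
    calc G.edist x z ≤ G.edist x y + G.edist y z := SimpleGraph.edist_triangle
      _ ≤ T + r := by gcongr
      _ = _ := by push_cast; ring
  have hdis : Disjoint (U.filter fun x => G.edist x z ≤ a) (U'.filter fun x => Pad G c' x T) := by
    refine disjoint_left.mpr fun x h1 h2 => (mem_filter.mp (mem_filter.mp h2).1).2 ?_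
    exact (mem_filter.mp h1).2.trans (by exact_mod_cast Nat.le_add_right _ _)
  rw [← sum_filter_add_sum_filter_not U (fun x => G.edist x z ≤ (a + 2 * T : ℕ))]
  refine (add_le_add hle hle').trans ?_
  rw [← mul_add, ← sum_union hdis]
  refine mul_le_mul_of_nonneg_left (sum_le_sum_of_subset_of_nonneg (fun x hx => ?_)
    fun x _ _ => hw x) (by norm_num)
  rcases mem_union.mp hx with h | h
  · obtain ⟨h1, h2⟩ := mem_filter.mp h
    refine mem_filter.mpr ⟨h1, fun y hy => ?_⟩
    have e1 := tri (by rwa [SimpleGraph.edist_comm]) h2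
    have e2 := tri (x := x) (y := x) (by simp) h2
    simp only [e1, e2, if_true]
  · obtain ⟨h1, h2⟩ := mem_filter.mp h
    obtain ⟨h3, h4⟩ := mem_filter.mp h1
    refine mem_filter.mpr ⟨h3, fun y hy => ?_⟩
    have e : ∀ y, G.edist x y ≤ T → ¬ G.edist y z ≤ (a + T : ℕ) := fun y hy h =>
      h4 (by have := tri hy h; rwa [show a + T + T = a + 2 * T by ring] at this)
    simp only [e y hy, e x (by simp), if_false]
    exact h2 y hy

lemma count_jumps (b : ℕ → ℕ) (hb : ∀ l, b l ≤ b (l + 1)) (F L : ℕ) :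
    F ^ ((range L).filter fun l => ¬ b (l + 1) ≤ F * b l).card * b 0 ≤ b L := by
  induction L with
  | zero => simp
  | succ L ih =>
    rw [range_add_one, filter_insert]
    split_ifs with h
    · exact ih.trans (hb L)
    · rw [card_insert_of_notMem (by simp), pow_succ, mul_comm _ F, mul_assoc]
      exact (Nat.mul_le_mul_left F ih).trans (not_le.mp h).le

lemma count_good (b : ℕ → ℕ) (hb : ∀ l, b l ≤ b (l + 1)) (h0 : 0 < b 0) {E K L : ℕ}
    (hL : b L ≤ 2 ^ K * b 0) :
    E * L ≤ E * ((range L).filter fun l => b (l + 1) ≤ 2 ^ E * b l).card + K := by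
  have h1 := (count_jumps b hb (2 ^ E) L).trans hL
  rw [← pow_mul] at h1
  have h2 := (Nat.pow_le_pow_iff_right (by norm_num)).mp (Nat.le_of_mul_le_mul_right h1 h0)
  have h3 := card_filter_add_card_filter_not (s := range L) fun l => b (l + 1) ≤ 2 ^ E * b l
  rw [card_range] at h3
  conv_lhs => rw [← h3, mul_add]
  omega

lemma red_one (a T : ℕ) {K : ℕ} (hK : 0 < K) : Red (Fam G (a + 4 * T * K) T 1)
    fun x => if bs G x (a + 4 * T * K) ≤ 2 ^ K * bs G x a then 3 / 4 else 1 := by
  classical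
  intro w hw
  set Gd := univ.filter fun x => bs G x (a + 4 * T * K) ≤ 2 ^ K * bs G x a with hGd
  obtain ⟨l, hl, hle⟩ := exists_le_of_sum_le (s := range (2 * K))
    (f := fun _ => ∑ x ∈ Gd, w x)
    (g := fun l => 2 * ∑ x ∈ Gd.filter
      (fun x => bs G x (a + 2 * T * (l + 1)) ≤ 2 ^ 1 * bs G x (a + 2 * T * l)), w x)
    ⟨0, mem_range.mpr (by omega)⟩ (by
      rw [← mul_sum]
      simp only [sum_filter]
      rw [sum_comm, sum_comm (s := range (2 * K)), mul_sum]
      refine sum_le_sum fun x hx => ?_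
      rw [← sum_filter, sum_const, sum_const, card_range, nsmul_eq_mul, nsmul_eq_mul]
      have := count_good (fun l => bs G x (a + 2 * T * l)) (fun l => bs_mono x (by nlinarith))
        (bs_pos _ _) (E := 1) (K := K) (L := 2 * K) (by
          have := (mem_filter.mp hx).2
          rwa [show a + 2 * T * (2 * K) = a + 4 * T * K by ring, mul_zero, add_zero])
      have h2 : (K : ℝ) ≤ ((range (2 * K)).filter fun l =>
          bs G x (a + 2 * T * (l + 1)) ≤ 2 ^ 1 * bs G x (a + 2 * T * l)).card := by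
        exact_mod_cast (by omega)
      rw [Nat.cast_mul, Nat.cast_ofNat]
      nlinarith [hw x])
  set U := Gd.filter fun x => bs G x (a + 2 * T * (l + 1)) ≤ 2 ^ 1 * bs G x (a + 2 * T * l)
  obtain ⟨c, hc, hle'⟩ := carve (G := G) (a + 2 * T * l) T w hw U fun x hx => by
    have := (mem_filter.mp hx).2
    rwa [mul_add, mul_one, ← add_assoc, pow_one] at this
  refine ⟨U.filter fun x => Pad G c x T, ⟨{c}, by simp, fun c' hc' y => ?_,
    fun x hx => ⟨c, mem_singleton_self _, (mem_filter.mp hx).2⟩⟩, ?_⟩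
  · rw [mem_singleton.mp hc']
    refine (hc y).trans (by
      have := mem_range.mp hl
      exact_mod_cast (by nlinarith))
  · have e : ∑ x, w x * (if bs G x (a + 4 * T * K) ≤ 2 ^ K * bs G x a then 3 / 4 else 1) =
        ∑ x, w x - (∑ x ∈ Gd, w x) / 4 := by
      rw [hGd, sum_filter, sum_div, ← sum_sub_distrib]
      refine sum_congr rfl fun x _ => ?_
      split_ifs <;> ring
    rw [e]
    have := sum_add_sum_compl (U.filter fun x => Pad G c x T) w
    linarith

end Pool.Agent.P.MP_4a087e_lc.Up
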