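import Pool.Agent.P.MP_4a087e_lc.UpB

open Finset Relation

namespace Pool.Agent.P.MP_4a087e_lc.Up

variable {V : Type} [Fintype V] [DecidableEq V] {G : SimpleGraph V}

lemma red_scale {R m : ℕ} {φ : V → ℝ} (h : Red (Fam G R m 1) φ) (hφ : ∀ x, 0 ≤ φ x) (N : ℕ) :
    Red (OK G (N * (2 * R + 1))) fun x => φ x ^ (m * N) := by
  have h1 := (Red.prod (F := fun i => Fam G R m i) (F' := fun _ => Fam G R m 1)
    (φ := fun _ => φ) m (fun _ _ => h) (fun _ => hφ) (Fam_empty R m)
    fun i _ S hS S' hS' => Fam_union hS hS').mono (Fam_OK R m) fun _ => le_rfl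
  have h2 := Red.prod (F := fun i => OK G (i * (2 * R + 1))) (F' := fun _ => OK G (2 * R))
    N (fun _ _ => h1) (fun _ x => prod_nonneg fun _ _ => hφ x) (by simpa using OK_empty)
    fun i _ S hS S' hS' => OK_mono (by ring_nf; rfl) (OK_union hS hS')
  simpa only [prod_const, card_range, ← pow_mul] using h2

lemma univ_OK {k q K M : ℕ} (hn : Fintype.card V ≤ 2 ^ k) (hk : 0 < k) (hK : 2 * k ≤ K * q)
    (hM : 6 * k ≤ 2 ^ q * M * q) : univ ∈ OK G (q * (17 * K * (2 ^ q * M) + 1)) := by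
  have hK0 : 0 < K := Nat.pos_of_ne_zero fun h => by simp [h] at hK; omega
  have h := Red.prod (F := fun j => OK G (j * (17 * K * (2 ^ q * M) + 1)))
    (F' := fun _ => OK G (17 * K * (2 ^ q * M)))
    (φ := fun j x => (if bs G x (4 * 2 ^ (j + 1) * K) ≤ 2 ^ K * bs G x (4 * 2 ^ j * K)
      then (3 / 4 : ℝ) else 1) ^ (2 ^ q * M)) q (fun j hj => ?_) (fun j x => by positivity)
    (by simpa using OK_empty) fun i _ S hS S' hS' => OK_mono (by ring_nf; rfl) (OK_union hS hS')
  swap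
  · have h1 := red_scale (red_one (G := G) (4 * 2 ^ j * K) (2 ^ j) hK0) (fun x => by positivity)
      (2 ^ (q - j) * M)
    have e : 2 ^ j * 2 ^ (q - j) = 2 ^ q := by rw [← pow_add]; congr 1; omega
    rw [← mul_assoc, e, show 4 * 2 ^ j * K + 4 * 2 ^ j * K = 4 * 2 ^ (j + 1) * K by ring] at h1
    refine h1.mono (OK_mono ?_) fun _ => le_rfl
    have h2 : 1 ≤ 2 ^ j * K := Nat.mul_pos (by positivity) hK0
    calc _ ≤ 2 ^ (q - j) * M * (2 * (4 * 2 ^ (j + 1) * K) + 2 ^ j * K) := by gcongr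
      _ = _ := by rw [← e]; ring
  obtain ⟨S, hS, hle⟩ := h (fun _ => 1) fun _ => zero_le_one
  have hx : ∀ x, 1 * ∏ j ∈ range q, (if bs G x (4 * 2 ^ (j + 1) * K) ≤
      2 ^ K * bs G x (4 * 2 ^ j * K) then (3 / 4 : ℝ) else 1) ^ (2 ^ q * M) ≤ (27 / 64) ^ k := by
    intro x
    have h1 := count_good (fun j => bs G x (4 * 2 ^ j * K))
      (fun j => bs_mono x (by gcongr <;> omega)) (bs_pos _ _) (E := K) (K := k) (L := q)
      (((bs_le _ _).trans hn).trans (Nat.le_mul_of_pos_right _ (bs_pos _ _)))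
    rw [one_mul, prod_pow, prod_ite, prod_const_one, mul_one, prod_const, ← pow_mul,
      show (27 / 64 : ℝ) = (3 / 4) ^ 3 by norm_num, ← pow_mul]
    refine pow_le_pow_of_le_one (by norm_num) (by norm_num) ?_
    generalize ((range q).filter fun j => bs G x (4 * 2 ^ (j + 1) * K) ≤
      2 ^ K * bs G x (4 * 2 ^ j * K)).card = g at h1 ⊢
    have h2 : q ≤ 2 * g := Nat.le_of_mul_le_mul_left (by nlinarith) hK0
    have h3 : 2 ^ q * M * q ≤ 2 ^ q * M * (2 * g) := Nat.mul_le_mul_left _ h2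
    nlinarith
  have h1 : (Sᶜ.card : ℝ) < 1 := by
    calc (Sᶜ.card : ℝ) = ∑ x ∈ Sᶜ, (1 : ℝ) := by simp
      _ ≤ _ := hle
      _ ≤ ∑ _x : V, (27 / 64 : ℝ) ^ k := sum_le_sum fun x _ => hx x
      _ = Fintype.card V * (27 / 64 : ℝ) ^ k := by simp
      _ ≤ 2 ^ k * (27 / 64 : ℝ) ^ k := by gcongr; exact_mod_cast hn
      _ = (27 / 32) ^ k := by rw [← mul_pow]; norm_num
      _ < 1 := pow_lt_one₀ (by norm_num) (by norm_num) hk.ne'
  have h2 : Sᶜ = ∅ := card_eq_zero.mp (by exact_mod_cast Nat.lt_one_iff.mp (by exact_mod_cast h1))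
  rwa [(compl_eq_empty_iff S).mp h2] at hS

lemma ordering_of_OK {n d : ℕ} {G : SimpleGraph (Fin n)} (h : univ ∈ OK G d) :
    ∃ f : Fin n → ℝ, IsDiamOrdering G f d := by
  obtain ⟨h, hh⟩ := h
  have key : ∀ x y : Fin n, h x * n + x.1 ≤ h y * n + y.1 → h x ≤ h y := by
    intro x y hxy
    by_contra hc
    have : (h y + 1) * n ≤ h x * n := Nat.mul_le_mul_right _ (by omega)
    have := y.2
    nlinarith
  refine ⟨fun x => ((h x * n + x.1 : ℕ) : ℝ), fun x y hxy => ?_, fun k v hadj hm i j => ?_⟩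
  · have e : h x * n + x.1 = h y * n + y.1 := Nat.cast_injective (R := ℝ) hxy
    have := le_antisymm (key x y e.le) (key y x e.ge)
    rw [this] at e
    exact Fin.ext (by omega)
  · have h1 : ∀ t (i j : Fin (k + 1)), i.1 + t = j.1 →
        ReflTransGen (Step G univ h) (v i) (v j) := by
      intro t
      induction t with
      | zero => intro i j h; rw [show i = j from Fin.ext h]
      | succ t ih =>
        intro i j e
        have hj := j.2
        let j' : Fin k := ⟨i.1 + t, by omega⟩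
        rw [show j = j'.succ from Fin.ext (by simp [j']; omega)]
        refine (ih i j'.castSucc (by simp [j'])).tail ⟨hadj j', mem_univ _, mem_univ _, key _ _ ?_⟩
        exact (Nat.cast_le (α := ℝ)).mp (hm j'.castSucc_lt_succ).le
    rcases le_total i j with hij | hij
    · exact hh _ _ (h1 (j - i) i j (by omega))
    · rw [SimpleGraph.edist_comm]
      exact hh _ _ (h1 (i - j) j i (by omega))

lemma ordDiam_le {n k q : ℕ} (hn : n ≤ 2 ^ k) (hq : 0 < q) (hk : 4 ^ q ≤ k) :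
    ordDiam n * q ≤ 378 * k ^ 2 := by
  have h1 : q < 2 ^ q := Nat.lt_two_pow_self
  have h2 : 2 ^ q * q ≤ k := by
    calc 2 ^ q * q ≤ 2 ^ q * 2 ^ q := by gcongr
      _ = 4 ^ q := by rw [← mul_pow]; rfl
      _ ≤ k := hk
  have h3 : q ≤ k := by nlinarith
  set K := 2 * k / q + 1
  set M := 6 * k / (2 ^ q * q) + 1
  have hK1 : 2 * k < K * q := by rw [mul_comm K]; exact Nat.lt_mul_div_succ _ hq
  have hK2 : K * q ≤ 3 * k := by have := Nat.div_mul_le_self (2 * k) q; rw [add_mul]; omega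
  have hM1 : 6 * k < 2 ^ q * M * q := by
    rw [mul_right_comm]; exact Nat.lt_mul_div_succ _ (by positivity)
  have hM2 : 2 ^ q * M * q ≤ 7 * k := by
    have := Nat.mul_div_le (6 * k) (2 ^ q * q)
    rw [mul_right_comm, mul_add]; omega
  have h4 : ordDiam n ≤ q * (17 * K * (2 ^ q * M) + 1) :=
    Nat.sInf_le fun G => ordering_of_OK
      (univ_OK (by simpa using hn) (by omega) hK1.le hM1.le)
  calc ordDiam n * q ≤ q * (17 * K * (2 ^ q * M) + 1) * q := by gcongr
    _ = 17 * ((K * q) * (2 ^ q * M * q)) + q * q := by ring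
    _ ≤ 17 * ((3 * k) * (7 * k)) + k * k := by gcongr
    _ ≤ _ := by nlinarith

theorem upper : ∃ C : ℝ, ∃ N : ℕ, ∀ n : ℕ, N ≤ n →
    (ordDiam n : ℝ) ≤ C * Real.log n ^ 2 / Real.log (Real.log n) := by
  refine ⟨378 * 27, 16, fun n hn => ?_⟩
  set k := Nat.log 2 n + 1 with hk
  set q := Nat.log 4 k with hq
  have hk4 : 4 ≤ k := by
    have : 4 ≤ Nat.log 2 n := Nat.le_log_of_pow_le (by norm_num) hn
    omega
  have hq0 : 0 < q := Nat.log_pos (by norm_num) hk4
  have h1 : n ≤ 2 ^ k := (Nat.lt_pow_succ_log_self (by norm_num) n).le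
  have h := ordDiam_le h1 hq0 (Nat.pow_log_le_self 4 (by omega))
  have hn0 : (16 : ℝ) ≤ n := by exact_mod_cast hn
  have l1 := Real.log_two_gt_d9
  have l2 := Real.log_two_lt_d9
  have hL : 4 * Real.log 2 ≤ Real.log n := by
    have := Real.log_le_log (by norm_num) (show (2 : ℝ) ^ 4 ≤ n by linarith)
    rw [Real.log_pow] at this
    exact_mod_cast this
  have h2 : Real.log n ≤ k := by
    have := Real.log_le_log (by linarith) (show (n : ℝ) ≤ 2 ^ k by exact_mod_cast h1)
    rw [Real.log_pow] at this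
    have : (0 : ℝ) ≤ k := Nat.cast_nonneg _
    nlinarith
  have h3 : (k : ℝ) ≤ 3 * Real.log n := by
    have h' : (2 : ℝ) ^ Nat.log 2 n ≤ n := by exact_mod_cast Nat.pow_log_le_self 2 (by omega)
    have := Real.log_le_log (by positivity) h'
    rw [Real.log_pow] at this
    have : (0 : ℝ) ≤ Nat.log 2 n := Nat.cast_nonneg _
    rw [hk]
    push_cast
    nlinarith
  have h4 : Real.log (Real.log n) ≤ 3 * q := by
    have h' : (k : ℝ) ≤ 2 ^ (2 * (q + 1)) := by
      rw [pow_mul]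
      exact_mod_cast (Nat.lt_pow_succ_log_self (by norm_num : 1 < 4) k).le
    have := Real.log_le_log (by linarith) (h2.trans h')
    rw [Real.log_pow] at this
    have : (1 : ℝ) ≤ q := by exact_mod_cast hq0
    push_cast at *
    nlinarith
  rw [le_div_iff₀ (Real.log_pos (by linarith))]
  have h5 : (ordDiam n : ℝ) * q ≤ 378 * k ^ 2 := by exact_mod_cast h
  calc (ordDiam n : ℝ) * Real.log (Real.log n) ≤ ordDiam n * (3 * q) := by gcongr
    _ ≤ 3 * (378 * k ^ 2) := by linarith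
    _ ≤ 3 * (378 * (3 * Real.log n) ^ 2) := by gcongr
    _ = _ := by ring

end Pool.Agent.P.MP_4a087e_lc.Up
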