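import Pool.Agent.P.MP_4a087e_lc.NullLag
import Pool.Agent.P.MP_4a087e_lc.DetBound

open MeasureTheory Set Module Submodule Metric Asymptotics Filter Topology
open scoped NNReal

set_option linter.unusedSectionVars false

namespace Pool.Agent.P.MP_4a087e_lc

section lip
variable {X F : Type*} [PseudoMetricSpace X] [NormedAddCommGroup F] [NormedSpace ℝ F]

/-- bounded and Lipschitz -/
def BL {F : Type*} [NormedAddCommGroup F] (f : X → F) : Prop :=
  (∃ K, LipschitzWith K f) ∧ ∃ c : ℝ, ∀ x, ‖f x‖ ≤ c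

lemma BL.smul {f : X → ℝ} {v : X → F} (hf : BL f) (hv : BL v) : BL fun x => f x • v x := by
  obtain ⟨⟨K, hK⟩, a, ha⟩ := hf
  obtain ⟨⟨L, hL⟩, c, hc⟩ := hv
  refine ⟨⟨K * ‖c‖₊ + ‖a‖₊ * L, LipschitzWith.of_dist_le_mul fun x y => ?_⟩, a * c, fun x => ?_⟩
  · have h1 := hK.dist_le_mul x y
    have h2 := hL.dist_le_mul x y
    rw [dist_eq_norm] at h1 h2 ⊢
    have e : f x • v x - f y • v y = (f x - f y) • v x + f y • (v x - v y) := by
      simp [sub_smul, smul_sub]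
    rw [e]
    refine (norm_add_le _ _).trans ?_
    rw [norm_smul, norm_smul]
    have h3 : ‖v x‖ ≤ ‖c‖ := (hc x).trans (le_abs_self c)
    have h4 : ‖f y‖ ≤ ‖a‖ := (ha y).trans (le_abs_self a)
    push_cast
    calc ‖f x - f y‖ * ‖v x‖ + ‖f y‖ * ‖v x - v y‖
        ≤ (K * dist x y) * ‖c‖ + ‖a‖ * (L * dist x y) := by gcongr
      _ = _ := by ring
  · rw [norm_smul]
    exact mul_le_mul (ha x) (hc x) (norm_nonneg _) ((norm_nonneg _).trans (ha x))

lemma BL.const (v : F) : BL fun _ : X => v := ⟨⟨0, LipschitzWith.const v⟩, ‖v‖, fun _ => le_rfl⟩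

lemma BL.pow {f : X → ℝ} (hf : BL f) (n : ℕ) : BL fun x => f x ^ n := by
  induction n with
  | zero => simpa using BL.const (1 : ℝ)
  | succ n ih => simpa [pow_succ] using ih.smul hf

lemma BL.add {v w : X → F} (hv : BL v) (hw : BL w) : BL fun x => v x + w x := by
  obtain ⟨⟨K, hK⟩, a, ha⟩ := hv
  obtain ⟨⟨L, hL⟩, c, hc⟩ := hw
  exact ⟨⟨K + L, hK.add hL⟩, a + c, fun x => (norm_add_le _ _).trans (add_le_add (ha x) (hc x))⟩

lemma BL.sum {ι : Type*} (s : Finset ι) {v : ι → X → F} (hv : ∀ i, BL (v i)) :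
    BL fun x => ∑ i ∈ s, v i x := by
  classical
  induction s using Finset.induction_on with
  | empty => simpa using BL.const (0 : F)
  | insert a s ha ih => simpa [Finset.sum_insert ha] using (hv a).add ih

lemma BL.inv {f : X → ℝ} (hf : BL f) {c : ℝ} (hc : 0 < c) (h : ∀ x, c ≤ f x) :
    BL fun x => (f x)⁻¹ := by
  obtain ⟨⟨K, hK⟩, -⟩ := hf
  refine ⟨⟨K * ‖c⁻¹ * c⁻¹‖₊, LipschitzWith.of_dist_le_mul fun x y => ?_⟩, c⁻¹, fun x => ?_⟩
  · have h1 := hK.dist_le_mul x y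
    have hx := hc.trans_le (h x)
    have hy := hc.trans_le (h y)
    rw [dist_eq_norm] at h1 ⊢
    have e : (f x)⁻¹ - (f y)⁻¹ = -(f x - f y) * ((f x)⁻¹ * (f y)⁻¹) := by
      field_simp; ring
    rw [e, norm_mul, norm_neg]
    have h2 : ‖(f x)⁻¹ * (f y)⁻¹‖ ≤ ‖c⁻¹ * c⁻¹‖ := by
      rw [Real.norm_of_nonneg (by positivity), Real.norm_of_nonneg (by positivity)]
      have := h x
      have := h y
      gcongr
    push_cast
    calc ‖f x - f y‖ * ‖(f x)⁻¹ * (f y)⁻¹‖ ≤ (K * dist x y) * ‖c⁻¹ * c⁻¹‖ := by gcongr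
      _ = _ := by ring
  · have hx := hc.trans_le (h x)
    rw [Real.norm_of_nonneg (by positivity)]
    exact inv_anti₀ hc (h x)

end lip

lemma weight_sum_le {ι : Type*} [Fintype ι] (h : ι → ℝ) (h0 : ∀ i, 0 ≤ h i) {ρ : ℝ} (hρ : 0 < ρ)
    (i0 : ι) (hi0 : ρ / 2 ≤ h i0) {q : ℕ} (hq : Fintype.card ι ≤ 2 ^ q) :
    ∑ i, h i ^ q ≤ 6 / ρ * ∑ i, h i ^ (q + 1) := by
  obtain ⟨i1, -, hi1⟩ := Finset.exists_max_image Finset.univ h ⟨i0, Finset.mem_univ _⟩
  set H := h i1 with hH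
  have hH0 : ρ / 2 ≤ H := hi0.trans (hi1 i0 (Finset.mem_univ _))
  have hHp : 0 < H := by linarith
  set W := ∑ i, h i ^ (q + 1) with hW
  have h1 : ∀ i, h i ^ q ≤ 2 / H * h i ^ (q + 1) + (H / 2) ^ q := by
    intro i
    have := h0 i
    by_cases hc : H / 2 ≤ h i
    · have h2 : h i ^ q ≤ 2 / H * h i ^ (q + 1) := by
        rw [pow_succ, div_mul_eq_mul_div, le_div_iff₀ hHp]
        have : 0 ≤ h i ^ q := by positivity
        nlinarith
      have : 0 ≤ (H / 2) ^ q := by positivity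
      linarith
    · have h2 : h i ^ q ≤ (H / 2) ^ q := by
        gcongr; linarith
      have : 0 ≤ 2 / H * h i ^ (q + 1) := by positivity
      linarith
  have h2 : H ^ (q + 1) ≤ W :=
    Finset.single_le_sum (f := fun i => h i ^ (q + 1)) (fun i _ => pow_nonneg (h0 i) _)
      (Finset.mem_univ i1)
  have h3 : ∑ i, h i ^ q ≤ 2 / H * W + H ^ q := by
    refine (Finset.sum_le_sum fun i _ => h1 i).trans ?_
    rw [Finset.sum_add_distrib, ← Finset.mul_sum]
    simp only [Finset.sum_const, Finset.card_univ, nsmul_eq_mul]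
    have : (Fintype.card ι : ℝ) ≤ 2 ^ q := by exact_mod_cast hq
    have h4 : (Fintype.card ι : ℝ) * (H / 2) ^ q ≤ 2 ^ q * (H / 2) ^ q := by gcongr
    rw [← mul_pow, mul_div_cancel₀ _ two_ne_zero] at h4
    linarith
  have h4 : H ^ q ≤ 1 / H * W := by
    rw [div_mul_eq_mul_div, le_div_iff₀ hHp, one_mul, ← pow_succ]; exact h2
  have hW0 : 0 ≤ W := le_trans (by positivity) h2
  have h5 : 3 / H ≤ 6 / ρ := by
    rw [div_le_div_iff₀ hHp hρ]; linarith
  calc ∑ i, h i ^ q ≤ 3 / H * W := by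
        have : 3 / H * W = 2 / H * W + 1 / H * W := by ring
        linarith
    _ ≤ _ := by gcongr

section main
variable {E : Type*} [NormedAddCommGroup E] [NormedSpace ℝ E]
variable {Λ ι : Type*} (pos z : Λ → E) (κ : Λ → ι) (ρ : ℝ)

def cls (i : ι) : Set E := pos '' {a | κ a = i}

noncomputable def ht (i : ι) (x : E) : ℝ := max 0 (ρ - infDist x (cls pos κ i))

open Classical in
noncomputable def zeta (i : ι) (x : E) : E :=
  if H : ∃ a, κ a = i ∧ dist x (pos a) < ρ then z H.choose - x else 0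

variable {pos z κ ρ}

lemma ht_nonneg (i : ι) (x : E) : 0 ≤ ht pos κ ρ i x := le_max_left _ _

lemma ht_le (hρ : 0 ≤ ρ) (i : ι) (x : E) : ht pos κ ρ i x ≤ ρ :=
  max_le hρ (by have := infDist_nonneg (x := x) (s := cls pos κ i); linarith)

lemma ht_lip (i : ι) : LipschitzWith 1 (ht pos κ ρ i) := by
  have h1 : LipschitzWith 1 fun x => ρ - infDist x (cls pos κ i) := by
    simpa using (LipschitzWith.const ρ).sub (lipschitz_infDist_pt (cls pos κ i))
  exact h1.const_max 0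

lemma ht_pos_iff (hκ : Function.Surjective κ) (i : ι) (x : E) :
    0 < ht pos κ ρ i x ↔ ∃ a, κ a = i ∧ dist x (pos a) < ρ := by
  obtain ⟨a0, ha0⟩ := hκ i
  have hne : (cls pos κ i).Nonempty := ⟨pos a0, a0, ha0, rfl⟩
  simp only [ht, lt_max_iff, lt_irrefl, false_or, sub_pos, infDist_lt_iff hne]
  constructor
  · rintro ⟨_, ⟨a, ha, rfl⟩, h⟩; exact ⟨a, ha, h⟩
  · rintro ⟨a, ha, h⟩; exact ⟨_, ⟨a, ha, rfl⟩, h⟩

lemma zeta_eq (hc : ∀ a a', dist (pos a) (pos a') ≤ 4 * ρ → κ a = κ a' → z a = z a')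
    {i : ι} {x : E} (H : ∃ a, κ a = i ∧ dist x (pos a) < ρ) {a : Λ} (ha : κ a = i)
    (hd : dist x (pos a) ≤ 3 * ρ) : zeta pos z κ ρ i x = z a - x := by
  rw [zeta, dif_pos H]
  have := H.choose_spec
  rw [hc H.choose a ?_ (this.1.trans ha.symm)]
  have h1 := dist_triangle_left (pos H.choose) (pos a) x
  linarith [this.2]

lemma zeta_norm_le {D : ℝ} (hρ : 0 ≤ ρ) (hD0 : 0 ≤ D) (hD : ∀ a, ‖z a - pos a‖ ≤ D) (i : ι) (x : E) :
    ‖zeta pos z κ ρ i x‖ ≤ D + ρ := by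
  unfold zeta
  split_ifs with H
  · have h1 := H.choose_spec.2
    have h2 := hD H.choose
    have e : z H.choose - x = (z H.choose - pos H.choose) - (x - pos H.choose) := by abel
    rw [e]
    rw [dist_eq_norm] at h1
    exact (norm_sub_le _ _).trans (by linarith)
  · simp; linarith

lemma ht_zeta_BL {D : ℝ} (hκ : Function.Surjective κ) (hρ : 0 ≤ ρ) (hD0 : 0 ≤ D)
    (hD : ∀ a, ‖z a - pos a‖ ≤ D)
    (hc : ∀ a a', dist (pos a) (pos a') ≤ 4 * ρ → κ a = κ a' → z a = z a') (i : ι) :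
    BL fun x => ht pos κ ρ i x • zeta pos z κ ρ i x := by
  have hz := zeta_norm_le (κ := κ) hρ hD0 hD i
  have hb : ∀ x, ‖ht pos κ ρ i x • zeta pos z κ ρ i x‖ ≤ ρ * (D + ρ) := by
    intro x
    rw [norm_smul, Real.norm_of_nonneg (ht_nonneg i x)]
    exact mul_le_mul (ht_le hρ i x) (hz x) (norm_nonneg _) hρ
  refine ⟨⟨Real.toNNReal (D + 2 * ρ), LipschitzWith.of_dist_le_mul fun x y => ?_⟩, _, hb⟩
  have hl := (ht_lip (pos := pos) (κ := κ) (ρ := ρ) i).dist_le_mul x y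
  simp only [NNReal.coe_one, one_mul, Real.dist_eq] at hl
  have hxy : 0 ≤ dist x y := dist_nonneg
  rw [Real.coe_toNNReal _ (by positivity), dist_eq_norm]
  rcases (ht_nonneg (pos := pos) (κ := κ) (ρ := ρ) i y).eq_or_lt with hy | hy
  · rw [← hy] at hl ⊢
    simp only [zero_smul, sub_zero, norm_smul, Real.norm_eq_abs] at hl ⊢
    calc _ ≤ dist x y * (D + ρ) := mul_le_mul hl (hz x) (norm_nonneg _) hxy
      _ ≤ _ := by nlinarith
  rcases (ht_nonneg (pos := pos) (κ := κ) (ρ := ρ) i x).eq_or_lt with hx | hx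
  · rw [← hx] at hl ⊢
    simp only [zero_smul, zero_sub, norm_neg, norm_smul, Real.norm_eq_abs, abs_neg] at hl ⊢
    calc _ ≤ dist x y * (D + ρ) := mul_le_mul hl (hz y) (norm_nonneg _) hxy
      _ ≤ _ := by nlinarith
  by_cases hd : dist x y ≤ 2 * ρ
  · obtain ⟨a, ha, hxa⟩ := (ht_pos_iff hκ i x).mp hx
    have e1 := zeta_eq hc ((ht_pos_iff hκ i x).mp hx) ha (by linarith)
    have e2 := zeta_eq hc ((ht_pos_iff hκ i y).mp hy) ha (by
      have := dist_triangle_left y (pos a) x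
      linarith)
    have e : ht pos κ ρ i x • zeta pos z κ ρ i x - ht pos κ ρ i y • zeta pos z κ ρ i y
        = (ht pos κ ρ i x - ht pos κ ρ i y) • zeta pos z κ ρ i x - ht pos κ ρ i y • (x - y) := by
      rw [e2, e1]
      simp only [sub_smul, smul_sub]
      abel
    rw [e]
    refine (norm_sub_le _ _).trans ?_
    rw [norm_smul, norm_smul, Real.norm_eq_abs, Real.norm_of_nonneg hy.le, ← dist_eq_norm]
    have h1 := mul_le_mul hl (hz x) (norm_nonneg _) hxy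
    have h2 := mul_le_mul_of_nonneg_right (ht_le (pos := pos) (κ := κ) hρ i y) hxy
    nlinarith
  · refine (norm_sub_le _ _).trans ?_
    have := hb x
    have := hb y
    nlinarith

lemma ht_per {g : E} (hg : ∀ a, ∃ a', pos a' = g + pos a ∧ κ a' = κ a)
    (hg' : ∀ a, ∃ a', pos a' = -g + pos a ∧ κ a' = κ a) (i : ι) (x : E) :
    ht pos κ ρ i (g + x) = ht pos κ ρ i x := by
  have : (fun y => g + y) '' cls pos κ i = cls pos κ i := by
    ext y
    constructor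
    · rintro ⟨_, ⟨a, ha, rfl⟩, rfl⟩
      obtain ⟨a', h1, h2⟩ := hg a
      exact ⟨a', h2.trans ha, h1⟩
    · rintro ⟨a, ha, rfl⟩
      obtain ⟨a', h1, h2⟩ := hg' a
      exact ⟨pos a', ⟨a', h2.trans ha, rfl⟩, by simp [h1]⟩
  unfold ht
  conv_lhs => rw [← this]
  rw [infDist_image (isometry_add_left g)]

lemma local_deriv {D : ℝ} (hκ : Function.Surjective κ) (hρ : 0 ≤ ρ) (hD0 : 0 ≤ D)
    (hD : ∀ a, ‖z a - pos a‖ ≤ D)
    (hc : ∀ a a', dist (pos a) (pos a') ≤ 4 * ρ → κ a = κ a' → z a = z a') (i : ι) {q : ℕ}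
    (hq : 1 ≤ q) {x : E} (hx : DifferentiableAt ℝ (ht pos κ ρ i) x) :
    ∃ γ : E →L[ℝ] ℝ, ‖γ‖ ≤ (q + 1) * ht pos κ ρ i x ^ q ∧ (γ ≠ 0 → 0 < ht pos κ ρ i x) ∧
      HasFDerivAt (fun y => ht pos κ ρ i y ^ (q + 1)) γ x ∧
      HasFDerivAt (fun y => ht pos κ ρ i y ^ (q + 1) • zeta pos z κ ρ i y)
        (γ.smulRight (zeta pos z κ ρ i x)
          - ht pos κ ρ i x ^ (q + 1) • ContinuousLinearMap.id ℝ E) x := by
  have hw := hx.hasFDerivAt.pow (q + 1)
  have hn : ‖fderiv ℝ (ht pos κ ρ i) x‖ ≤ 1 := by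
    simpa using norm_fderiv_le_of_lipschitz ℝ (x₀ := x) (ht_lip (pos := pos) (κ := κ) (ρ := ρ) i)
  have h0 := ht_nonneg (pos := pos) (κ := κ) (ρ := ρ) i x
  refine ⟨_, ?_, ?_, hw, ?_⟩
  · rw [norm_smul, Real.norm_of_nonneg (by positivity)]
    simp only [Nat.add_sub_cancel, nsmul_eq_mul, Nat.cast_add, Nat.cast_one]
    exact mul_le_of_le_one_right (by positivity) hn
  · intro h
    rcases h0.eq_or_lt with h1 | h1
    · exfalso; apply h
      rw [← h1]
      simp [Nat.one_le_iff_ne_zero.mp hq]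
    · exact h1
  · rcases h0.eq_or_lt with h1 | h1
    · rw [← h1] at hw ⊢
      simp only [Nat.add_sub_cancel, zero_pow (Nat.one_le_iff_ne_zero.mp hq), smul_zero, zero_smul,
        ContinuousLinearMap.zero_smulRight, zero_pow (Nat.succ_ne_zero q), sub_zero] at hw ⊢
      rw [hasFDerivAt_iff_isLittleO] at hw ⊢
      simp only [← h1, zero_pow (Nat.succ_ne_zero q), zero_smul, sub_zero,
        zero_apply] at hw ⊢
      refine IsBigO.trans_isLittleO ?_ hw
      refine IsBigO.of_bound (D + ρ) (Eventually.of_forall fun y => ?_)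
      rw [norm_smul, mul_comm]
      exact mul_le_mul_of_nonneg_right (zeta_norm_le hρ hD0 hD i y) (norm_nonneg _)
    · obtain ⟨a, ha, hxa⟩ := (ht_pos_iff hκ i x).mp h1
      have hev : ∀ᶠ y in 𝓝 x, zeta pos z κ ρ i y = z a - y := by
        have : ∀ᶠ y in 𝓝 x, dist y (pos a) < ρ :=
          (continuous_id.dist continuous_const).continuousAt.eventually_lt continuousAt_const hxa
        filter_upwards [this] with y hy
        exact zeta_eq hc ⟨a, ha, hy⟩ ha (by linarith)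
      have hz : HasFDerivAt (zeta pos z κ ρ i) (-ContinuousLinearMap.id ℝ E) x := by
        refine HasFDerivAt.congr_of_eventuallyEq ?_ hev
        simpa using (hasFDerivAt_id x).const_sub (z a)
      refine (hw.fun_smul hz).congr_fderiv ?_
      rw [smul_neg]
      abel

end main

theorem analytic_core {m : ℕ} {Λ ι ι' : Type*} [Fintype ι] [Finite ι']
    (b : Basis ι' ℝ (EuclideanSpace ℝ (Fin (m + 1))))
    (pos z : Λ → EuclideanSpace ℝ (Fin (m + 1))) (κ : Λ → ι) (τ : Λ → ℝ)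
    {ρ D α η T Q : ℝ} {q : ℕ} (hκ : Function.Surjective κ) (hρ : 0 < ρ) (hD0 : 0 ≤ D)
    (hα : 0 ≤ α) (hη : 0 ≤ η) (hQ : 0 < Q) (hQ' : α * T + m * η ≤ m * Q ^ 2)
    (hq1 : 1 ≤ q) (hq : Fintype.card ι ≤ 2 ^ q)
    (hper : ∀ g ∈ span ℤ (Set.range b), ∀ a, ∃ a', pos a' = g + pos a ∧ κ a' = κ a ∧ z a' = g + z a)
    (hcov : ∀ x, ∃ a, dist x (pos a) ≤ ρ / 2)
    (hD : ∀ a, ‖z a - pos a‖ ≤ D)
    (hc : ∀ a a', dist (pos a) (pos a') ≤ 4 * ρ → κ a = κ a' → z a = z a')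
    (hτ : ∀ a, 0 ≤ τ a ∧ τ a ≤ T)
    (hz : ∀ a a', dist (pos a) (pos a') ≤ 4 * ρ → ‖z a - z a'‖ ^ 2 ≤ α * |τ a - τ a'| + η) :
    ((m + 1).factorial : ℝ) ≤ (6 * (q + 1) / ρ) ^ (m + 1) * (2 * (D + ρ) * Q ^ m) := by
  let E := EuclideanSpace ℝ (Fin (m + 1))
  let W : E → ℝ := fun x => ∑ i, ht pos κ ρ i x ^ (q + 1)
  let S : E → E := fun x => ∑ i, ht pos κ ρ i x ^ (q + 1) • zeta pos z κ ρ i x
  let u : E → E := fun x => (W x)⁻¹ • S x
  have hbig : ∀ x, ∃ i, ρ / 2 ≤ ht pos κ ρ i x := by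
    intro x
    obtain ⟨a, ha⟩ := hcov x
    refine ⟨κ a, le_max_of_le_right ?_⟩
    have : infDist x (cls pos κ (κ a)) ≤ dist x (pos a) := infDist_le_dist_of_mem ⟨a, rfl, rfl⟩
    linarith
  have hW : ∀ x, (ρ / 2) ^ (q + 1) ≤ W x := by
    intro x
    obtain ⟨i, hi⟩ := hbig x
    refine le_trans ?_ (Finset.single_le_sum (f := fun i => ht pos κ ρ i x ^ (q + 1))
      (fun i _ => pow_nonneg (ht_nonneg i x) _) (Finset.mem_univ i))
    gcongr
  have hW0 : ∀ x, 0 < W x := fun x => lt_of_lt_of_le (by positivity) (hW x)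
  have hhBL : ∀ i, BL (ht pos κ ρ i) := fun i => ⟨⟨1, ht_lip i⟩, ρ, fun x => by
    rw [Real.norm_of_nonneg (ht_nonneg i x)]; exact ht_le hρ.le i x⟩
  have huBL : BL u := by
    refine BL.smul (BL.inv (BL.sum _ fun i => (hhBL i).pow _) (by positivity) hW) ?_
    refine BL.sum _ fun i => ?_
    simpa only [pow_succ, mul_smul] using
      ((hhBL i).pow q).smul (ht_zeta_BL hκ hρ.le hD0 hD hc i)
  obtain ⟨⟨K, hK⟩, -⟩ := huBL
  have hun : ∀ x, ‖u x‖ ≤ D + ρ := by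
    intro x
    have h1 : ‖S x‖ ≤ W x * (D + ρ) := by
      refine (norm_sum_le _ _).trans ?_
      rw [Finset.sum_mul]
      refine Finset.sum_le_sum fun i _ => ?_
      rw [norm_smul, Real.norm_of_nonneg (pow_nonneg (ht_nonneg i x) _)]
      exact mul_le_mul_of_nonneg_left (zeta_norm_le hρ.le hD0 hD i x) (pow_nonneg (ht_nonneg i x) _)
    rw [norm_smul, Real.norm_of_nonneg (inv_nonneg.mpr (hW0 x).le), inv_mul_le_iff₀ (hW0 x)]
    exact h1
  have huper : ∀ (g : span ℤ (Set.range b)) (x : E), u (g +ᵥ x) = u x := by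
    intro g x
    have h1 : ∀ i, ht pos κ ρ i (g.1 + x) = ht pos κ ρ i x := fun i =>
      ht_per (fun a => (hper g.1 g.2 a).imp fun a' h => ⟨h.1, h.2.1⟩)
        (fun a => (hper (-g.1) (neg_mem g.2) a).imp fun a' h => ⟨h.1, h.2.1⟩) i x
    have h2 : ∀ i, ht pos κ ρ i (g.1 + x) ^ (q + 1) • zeta pos z κ ρ i (g.1 + x)
        = ht pos κ ρ i x ^ (q + 1) • zeta pos z κ ρ i x := by
      intro i
      rcases (ht_nonneg (pos := pos) (κ := κ) (ρ := ρ) i x).eq_or_lt with h0 | h0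
      · rw [h1, ← h0]; simp
      · obtain ⟨a, ha, hxa⟩ := (ht_pos_iff hκ i x).mp h0
        obtain ⟨a', e1, e2, e3⟩ := hper g.1 g.2 a
        have hd : dist (g.1 + x) (pos a') < ρ := by rwa [e1, dist_add_left]
        rw [h1, zeta_eq hc ⟨a, ha, hxa⟩ ha (by linarith),
          zeta_eq hc ⟨a', e2.trans ha, hd⟩ (e2.trans ha) (by linarith), e3]
        simp
    show u (g.1 + x) = u x
    simp only [u, W, S, h2]
    simp only [h1]
  have hfac : (0 : ℝ) < (m + 1).factorial := by positivity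
  rw [← one_le_div hfac]
  refine null_lagrangian b hK huper ?_
  have hae : ∀ᵐ x ∂(μH[finrank ℝ E] : Measure E), ∀ i, DifferentiableAt ℝ (ht pos κ ρ i) x :=
    ae_all_iff.mpr fun i => (ht_lip i).ae_differentiableAt
  filter_upwards [hae] with x hx
  choose γ hγ1 hγ2 hγ3 hγ4 using fun i => local_deriv hκ hρ.le hD0 hD hc i hq1 (hx i)
  have hWd : HasFDerivAt W (∑ i, γ i) x := HasFDerivAt.fun_sum fun i _ => hγ3 i
  have hSd : HasFDerivAt S _ x := HasFDerivAt.fun_sum fun i (_ : i ∈ Finset.univ) => hγ4 i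
  have hWi : HasFDerivAt (fun y => (W y)⁻¹) (-(W x ^ 2)⁻¹ • ∑ i, γ i) x :=
    (hasDerivAt_inv (hW0 x).ne').comp_hasFDerivAt x hWd
  have hud := (hWi.smul hSd).fderiv
  have hA : ContinuousLinearMap.id ℝ E + fderiv ℝ u x
      = ∑ i, ((W x)⁻¹ • γ i).smulRight (zeta pos z κ ρ i x - u x) := by
    have : fderiv ℝ u x = _ := hud
    rw [this]
    ext1 v
    have hWx := (hW0 x).ne'
    simp only [add_apply, ContinuousLinearMap.id_apply,
      smul_apply, sum_apply, sub_apply,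
      ContinuousLinearMap.smulRight_apply, Finset.sum_sub_distrib, smul_sub, smul_eq_mul,
      ← Finset.sum_smul, mul_smul, ← Finset.smul_sum, u]
    rw [show (∑ i, ht pos κ ρ i x ^ (q + 1)) = W x from rfl, smul_smul (W x)⁻¹ (W x),
      inv_mul_cancel₀ hWx, one_smul]
    simp only [smul_smul]
    rw [show -(W x ^ 2)⁻¹ * ∑ i, γ i v = -((W x)⁻¹ * ((∑ i, γ i v) * (W x)⁻¹)) by
      field_simp, neg_smul,
      show (ContinuousLinearMap.id ℝ (EuclideanSpace ℝ (Fin (m + 1)))) v = v from rfl]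
    abel
  rw [hA, le_div_iff₀ hfac, mul_comm]
  refine (det_sum_le _ _ (V := 2 * (D + ρ) * Q ^ m) fun f hf => ?_).trans ?_
  · have hpos : ∀ j, ∃ a, κ a = f j ∧ dist x (pos a) < ρ := fun j =>
      (ht_pos_iff hκ _ x).mp (hγ2 _ fun h => hf j (by rw [h, smul_zero]))
    choose a ha1 ha2 using hpos
    refine chain_det_le _ (fun j => τ (a j)) hα hη hQ hQ' (fun j => ?_) (fun j => hτ _)
      fun i j => ?_
    · refine (norm_sub_le _ _).trans ?_
      have := zeta_norm_le (κ := κ) hρ.le hD0 hD (f j) x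
      have := hun x
      linarith
    · rw [zeta_eq hc ⟨a i, ha1 i, ha2 i⟩ (ha1 i) (by linarith [ha2 i]),
        zeta_eq hc ⟨a j, ha1 j, ha2 j⟩ (ha1 j) (by linarith [ha2 j])]
      have e : z (a i) - x - u x - (z (a j) - x - u x) = z (a i) - z (a j) := by abel
      rw [e]
      refine hz _ _ ?_
      have := dist_triangle_left (pos (a i)) (pos (a j)) x
      linarith [ha2 i, ha2 j]
  · refine mul_le_mul_of_nonneg_right ?_ (by positivity)
    refine pow_le_pow_left₀ (Finset.sum_nonneg fun i _ => norm_nonneg _) ?_ _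
    obtain ⟨i0, hi0⟩ := hbig x
    have h1 := weight_sum_le (fun i => ht pos κ ρ i x) (fun i => ht_nonneg i x) hρ i0 hi0 hq
    simp only [norm_smul, Real.norm_of_nonneg (inv_nonneg.mpr (hW0 x).le), ← Finset.mul_sum]
    rw [inv_mul_le_iff₀ (hW0 x)]
    calc ∑ i, ‖γ i‖ ≤ ∑ i, (q + 1) * ht pos κ ρ i x ^ q := Finset.sum_le_sum fun i _ => hγ1 i
      _ = (q + 1) * ∑ i, ht pos κ ρ i x ^ q := by rw [Finset.mul_sum]
      _ ≤ (q + 1) * (6 / ρ * W x) := by gcongr
      _ = _ := by ring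

end Pool.Agent.P.MP_4a087e_lc
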